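import Pool.Agent.Helper23.UP.Defs

/-! # UP-1: the blocks -/

namespace Pool.Agent.Helper23.UP

variable {Γ : Type} [Group Γ]

/-- The block lemma. -/
theorem block (H K L : Subgroup Γ) (r s : Γ) (hKL : K ≤ L) (hLH : L ≤ H) (hsH : s ∈ H)
    (hsL : s ∉ L) (hHL : ∀ h ∈ H, h ∉ L → ∃ a ∈ K, ∃ b ∈ K, h = a * s * b)
    (hr : r * r = 1) (hs : s * s = 1) (hbr : s * r * s = r * s * r)
    (hc : ∀ k ∈ K, k * r = r * k) (hrH : r ∉ H)
    (hgen : Subgroup.closure ((H : Set Γ) ∪ {r}) = ⊤) :
    ∃ M : Subgroup Γ, (∀ g, g ∈ M ↔ ∃ l ∈ L, ∃ h ∈ H, g = r * l * r * h) ∧ H ≤ M ∧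
      r ∉ M ∧ (∀ g, g ∉ M → r * g ∉ M → g⁻¹ * r * g ∈ M) ∧
      (∀ h ∈ H, r * h * r ∈ M ↔ h ∈ L) ∧
      (∀ g, g ∉ M → ∃ h ∈ H, ∃ x ∈ M, g = h * r * x) := by
  have hrinv : r⁻¹ = r := inv_eq_of_mul_eq_one_left hr
  have hsinv : s⁻¹ = s := inv_eq_of_mul_eq_one_left hs
  have hrr : ∀ x, r * (r * x) = x := fun x => by rw [← mul_assoc, hr, one_mul]
  have hss : ∀ x, s * (s * x) = x := fun x => by rw [← mul_assoc, hs, one_mul]
  have hbr1 : s * (r * s) = r * (s * r) := by simpa [mul_assoc] using hbr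
  have hbr' : ∀ x, s * (r * (s * x)) = r * (s * (r * x)) := fun x => by
    have := congrArg (· * x) hbr
    simpa [mul_assoc] using this
  have hc' : ∀ k ∈ K, ∀ x, k * (r * x) = r * (k * x) := fun k hk x => by
    rw [← mul_assoc, hc k hk, mul_assoc]
  -- left multiplication by `K`, `s`, `H`
  have hK : ∀ k ∈ K, ∀ g, (∃ l ∈ L, ∃ h ∈ H, g = r * l * r * h) →
      ∃ l ∈ L, ∃ h ∈ H, k * g = r * l * r * h := by
    rintro k hk g ⟨l, hl, h, hh, rfl⟩
    refine ⟨k * l, L.mul_mem (hKL hk) hl, h, hh, ?_⟩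
    simp only [mul_assoc]
    rw [hc' k hk]
  have hS : ∀ g, (∃ l ∈ L, ∃ h ∈ H, g = r * l * r * h) →
      ∃ l ∈ L, ∃ h ∈ H, s * g = r * l * r * h := by
    rintro g ⟨l, hl, h, hh, rfl⟩
    have hsl : s * l ∈ H := H.mul_mem hsH (hLH hl)
    have hsl' : s * l ∉ L := fun h' => hsL (by
      have := L.mul_mem h' (L.inv_mem hl)
      simpa [mul_assoc] using this)
    obtain ⟨a, ha, b, hb, hab⟩ := hHL _ hsl hsl'
    refine ⟨l * b⁻¹, L.mul_mem hl (L.inv_mem (hKL hb)), s * b * h,
      H.mul_mem (H.mul_mem hsH (hLH (hKL hb))) hh, ?_⟩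
    have h1 : l = s * (a * (s * b)) := by
      have := congrArg (s * ·) hab
      simpa [hss, mul_assoc] using this
    have h2 : l * b⁻¹ = s * (a * s) := by
      rw [h1]
      group
    rw [h2]
    have h3 : s * (r * (l * (r * h))) = r * (s * (r * (s * (l * (r * h))))) := by
      rw [← hrr (s * (r * (l * (r * h)))), ← hss (l * (r * h)), ← hbr', hss]
    have h4 : s * (l * (r * h)) = a * (s * (b * (r * h))) := by
      rw [← mul_assoc s l, hab]
      simp only [mul_assoc]
    simp only [mul_assoc]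
    rw [h3, h4, hc' b hb, ← hc' a ha, ← hbr']
  have hHm : ∀ k ∈ H, ∀ g, (∃ l ∈ L, ∃ h ∈ H, g = r * l * r * h) →
      ∃ l ∈ L, ∃ h ∈ H, k * g = r * l * r * h := by
    intro k hk g hg
    by_cases hkL : k ∈ L
    · have hks : k * s ∉ L := fun h' => hsL (by
        have := L.mul_mem (L.inv_mem hkL) h'
        simpa [mul_assoc] using this)
      obtain ⟨a, ha, b, hb, hab⟩ := hHL _ (H.mul_mem hk hsH) hks
      have h1 : k * g = a * (s * (b * (s * g))) := by
        have h2 : k = a * s * b * s := by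
          rw [← hab, mul_assoc, hs, mul_one]
        rw [h2]
        simp only [mul_assoc]
      rw [h1]
      exact hK _ ha _ (hS _ (hK _ hb _ (hS _ hg)))
    · obtain ⟨a, ha, b, hb, rfl⟩ := hHL _ hk hkL
      have h1 : a * s * b * g = a * (s * (b * g)) := by simp only [mul_assoc]
      rw [h1]
      exact hK _ ha _ (hS _ (hK _ hb _ hg))
  have hRL : ∀ l ∈ L, ∀ g, (∃ l ∈ L, ∃ h ∈ H, g = r * l * r * h) →
      ∃ l' ∈ L, ∃ h ∈ H, r * l * r * g = r * l' * r * h := by
    rintro l hl g ⟨l', hl', h, hh, rfl⟩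
    refine ⟨l * l', L.mul_mem hl hl', h, hh, ?_⟩
    simp only [mul_assoc]
    rw [hrr]
  let M : Subgroup Γ :=
    { carrier := {g | ∃ l ∈ L, ∃ h ∈ H, g = r * l * r * h}
      mul_mem' := by
        rintro x y ⟨l, hl, h, hh, rfl⟩ hy
        have h1 : r * l * r * h * y = r * l * r * (h * y) := by simp only [mul_assoc]
        show ∃ l' ∈ L, ∃ h' ∈ H, r * l * r * h * y = r * l' * r * h'
        rw [h1]
        exact hRL l hl _ (hHm h hh _ hy)
      one_mem' := ⟨1, L.one_mem, 1, H.one_mem, by rw [mul_one, mul_one, hr]⟩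
      inv_mem' := by
        rintro x ⟨l, hl, h, hh, rfl⟩
        have h1 : (r * l * r * h)⁻¹ = h⁻¹ * (r * l⁻¹ * r * 1) := by
          simp only [mul_inv_rev, hrinv, mul_assoc, mul_one]
        show ∃ l' ∈ L, ∃ h' ∈ H, (r * l * r * h)⁻¹ = r * l' * r * h'
        rw [h1]
        exact hHm _ (H.inv_mem hh) _ ⟨l⁻¹, L.inv_mem hl, 1, H.one_mem, rfl⟩ }
  have hM : ∀ g, g ∈ M ↔ ∃ l ∈ L, ∃ h ∈ H, g = r * l * r * h := fun g => Iff.rfl
  have hHM : H ≤ M := fun h hh => (hM h).2 ⟨1, L.one_mem, h, hh, by rw [mul_one, hr, one_mul]⟩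
  have hrM : r ∉ M := by
    intro h'
    obtain ⟨l, hl, h, hh, e⟩ := (hM r).1 h'
    apply hrH
    have h1 : r = l⁻¹ * h⁻¹ := by
      have h2 : r * (l * (r * h)) = r * 1 := by
        rw [mul_one, ← mul_assoc, ← mul_assoc]
        exact e.symm
      have h3 := mul_left_cancel h2
      have h4 : r * h = l⁻¹ := eq_inv_of_mul_eq_one_right h3
      rw [← h4, mul_assoc, mul_inv_cancel, mul_one]
    rw [h1]
    exact H.mul_mem (H.inv_mem (hLH hl)) (H.inv_mem hh)
  have hrhr : ∀ h ∈ H, h ∉ L → r * h * r ∉ H := by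
    intro h hh hhL h'
    obtain ⟨a, ha, b, hb, rfl⟩ := hHL h hh hhL
    apply hrH
    have h1 : r * (a * s * b) * r = a * (s * (r * (s * b))) := by
      simp only [mul_assoc]
      rw [hc b hb, ← hc' a ha, ← hbr']
    rw [h1] at h'
    have h2 : r = s⁻¹ * (a⁻¹ * (a * (s * (r * (s * b)))) * (b⁻¹ * s⁻¹)) := by group
    rw [h2]
    exact H.mul_mem (H.inv_mem hsH) (H.mul_mem (H.mul_mem (H.inv_mem (hLH (hKL ha))) h')
      (H.mul_mem (H.inv_mem (hLH (hKL hb))) (H.inv_mem hsH)))
  have hiff : ∀ h ∈ H, r * h * r ∈ M ↔ h ∈ L := by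
    intro h hh
    constructor
    · intro h'
      obtain ⟨l, hl, h2, hh2, e⟩ := (hM _).1 h'
      by_contra hhL
      have h3 : l⁻¹ * h ∉ L := fun h4 => hhL (by
        have := L.mul_mem hl h4
        simpa [mul_assoc] using this)
      apply hrhr _ (H.mul_mem (H.inv_mem (hLH hl)) hh) h3
      have h5 : r * (l⁻¹ * h) * r = h2 := by
        have h6 : h * r = l * (r * h2) := by
          have h7 : r * (h * r) = r * (l * (r * h2)) := by simpa [mul_assoc] using e
          exact mul_left_cancel h7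
        simp only [mul_assoc]
        rw [h6, inv_mul_cancel_left, hrr]
      rw [h5]
      exact hh2
    · intro hl
      exact (hM _).2 ⟨h, hl, 1, H.one_mem, by rw [mul_one]⟩
  have hcov : ∀ g, g ∈ M ∨ ∃ h ∈ H, ∃ x ∈ M, g = h * r * x := by
    intro g
    have hg : g ∈ Subgroup.closure ((H : Set Γ) ∪ {r}) := by rw [hgen]; trivial
    have hstepH : ∀ k ∈ H, ∀ y, (y ∈ M ∨ ∃ h ∈ H, ∃ x ∈ M, y = h * r * x) →
        (k * y ∈ M ∨ ∃ h ∈ H, ∃ x ∈ M, k * y = h * r * x) := by
      rintro k hk y (hy | ⟨h, hh, x, hx, rfl⟩)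
      · exact Or.inl (M.mul_mem (hHM hk) hy)
      · exact Or.inr ⟨k * h, H.mul_mem hk hh, x, hx, by simp only [mul_assoc]⟩
    have hstepr : ∀ y, (y ∈ M ∨ ∃ h ∈ H, ∃ x ∈ M, y = h * r * x) →
        (r * y ∈ M ∨ ∃ h ∈ H, ∃ x ∈ M, r * y = h * r * x) := by
      rintro y (hy | ⟨h, hh, x, hx, rfl⟩)
      · exact Or.inr ⟨1, H.one_mem, y, hy, by rw [one_mul]⟩
      · by_cases hhL : h ∈ L
        · left
          have h1 : r * (h * r * x) = (r * h * r) * x := by simp only [mul_assoc]
          rw [h1]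
          exact M.mul_mem ((hiff h hh).2 hhL) hx
        · obtain ⟨a, ha, b, hb, rfl⟩ := hHL h hh hhL
          right
          refine ⟨a * s, H.mul_mem (hLH (hKL ha)) hsH, s * b * x,
            M.mul_mem (hHM (H.mul_mem hsH (hLH (hKL hb)))) hx, ?_⟩
          simp only [mul_assoc]
          rw [hc' b hb, ← hc' a ha, ← hbr']
    refine Subgroup.closure_induction_left (p := fun g _ => g ∈ M ∨ ∃ h ∈ H, ∃ x ∈ M,
      g = h * r * x) (Or.inl M.one_mem) ?_ ?_ hg
    · rintro x (hx | hx) y _ hy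
      · exact hstepH x hx y hy
      · rw [Set.mem_singleton_iff] at hx
        subst hx
        exact hstepr y hy
    · rintro x (hx | hx) y _ hy
      · exact hstepH x⁻¹ (H.inv_mem hx) y hy
      · rw [Set.mem_singleton_iff] at hx
        subst hx
        rw [hrinv]
        exact hstepr y hy
  refine ⟨M, hM, hHM, hrM, ?_, hiff, fun g hg => (hcov g).resolve_left hg⟩
  intro g hg hrg
  obtain ⟨h, hh, x, hx, rfl⟩ := (hcov g).resolve_left hg
  have hhL : h ∉ L := by
    intro hl
    apply hrg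
    have h1 : r * (h * r * x) = (r * h * r) * x := by simp only [mul_assoc]
    rw [h1]
    exact M.mul_mem ((hiff h hh).2 hl) hx
  obtain ⟨a, ha, b, hb, rfl⟩ := hHL h hh hhL
  have h1 : (a * s * b * r * x)⁻¹ * r * (a * s * b * r * x) = x⁻¹ * (b⁻¹ * s * b) * x := by
    simp only [mul_inv_rev, hrinv, hsinv, mul_assoc]
    have h2 : a⁻¹ * (r * (a * (s * (b * (r * x))))) = r * (s * (b * (r * x))) := by
      rw [← hc' a ha, inv_mul_cancel_left]
    have h3 : b * (r * x) = r * (b * x) := hc' b hb x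
    have h4 : b⁻¹ * (r * (s * (b * x))) = r * (b⁻¹ * (s * (b * x))) :=
      hc' b⁻¹ (K.inv_mem hb) _
    rw [h2, h3, ← hbr', hss, h4, hrr]
  rw [h1]
  exact M.mul_mem (M.mul_mem (M.inv_mem hx) (hHM (H.mul_mem (H.mul_mem
    (H.inv_mem (hLH (hKL hb))) hsH) (hLH (hKL hb))))) hx

/-- indices -/
theorem block_index (H K L : Subgroup Γ) (r : Γ) (hKL : K ≤ L) (hLH : L ≤ H)
    (hr : r * r = 1) (hc : ∀ k ∈ K, k * r = r * k) (hfin : Finite H) (M : Subgroup Γ)
    (hM : ∀ g, g ∈ M ↔ ∃ l ∈ L, ∃ h ∈ H, g = r * l * r * h) (hHM : H ≤ M)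
    (hrM : r ∉ M) (hL : ∀ h ∈ H, r * h * r ∈ M ↔ h ∈ L)
    (hcov : ∀ g, g ∉ M → ∃ h ∈ H, ∃ x ∈ M, g = h * r * x) :
    M.index = L.relIndex H + 1 ∧ H.relIndex M ≤ K.relIndex L ∧ Finite Γ ∧
      Nat.card Γ ≤ (L.relIndex H + 1) * K.relIndex L * Nat.card H := by
  classical
  have hrinv : r⁻¹ = r := inv_eq_of_mul_eq_one_left hr
  have hrr : ∀ x, r * (r * x) = x := fun x => by rw [← mul_assoc, hr, one_mul]
  have hLfin : Finite L := Finite.of_injective (Subgroup.inclusion hLH)
    (Subgroup.inclusion_injective hLH)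
  -- the index of `M`
  have h1 : M.index = L.relIndex H + 1 := by
    let f : Option (H ⧸ L.subgroupOf H) → Γ ⧸ M := fun o =>
      match o with
      | none => ((1 : Γ) : Γ ⧸ M)
      | some q => Quotient.liftOn' q (fun h : H => (((h : Γ) * r : Γ) : Γ ⧸ M)) (by
          intro a b hab
          rw [QuotientGroup.leftRel_apply, Subgroup.mem_subgroupOf] at hab
          rw [QuotientGroup.eq]
          have h2 : ((a : Γ) * r)⁻¹ * ((b : Γ) * r) = r * ((a⁻¹ * b : H) : Γ) * r := by
            simp only [mul_inv_rev, hrinv, mul_assoc, Subgroup.coe_mul, Subgroup.coe_inv]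
          rw [h2]
          exact (hL _ (a⁻¹ * b).2).2 hab)
    have hf : Function.Bijective f := by
      constructor
      · have hne : ∀ h : H, ((1 : Γ) : Γ ⧸ M) ≠ (((h : Γ) * r : Γ) : Γ ⧸ M) := by
          intro h e
          rw [QuotientGroup.eq, inv_one, one_mul] at e
          apply hrM
          have := M.mul_mem (M.inv_mem (hHM h.2)) e
          simpa using this
        intro x y hxy
        rcases x with _ | x <;> rcases y with _ | y
        · rfl
        · induction y using Quotient.inductionOn' with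
          | h b => exact absurd hxy (hne b)
        · induction x using Quotient.inductionOn' with
          | h a => exact absurd hxy.symm (hne a)
        · induction y using Quotient.inductionOn' with
          | h b =>
            induction x using Quotient.inductionOn' with
            | h a =>
              congr 1
              apply Quotient.sound'
              rw [QuotientGroup.leftRel_apply, Subgroup.mem_subgroupOf]
              have e : (((a : Γ) * r : Γ) : Γ ⧸ M) = (((b : Γ) * r : Γ) : Γ ⧸ M) := hxy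
              rw [QuotientGroup.eq] at e
              have h2 : ((a : Γ) * r)⁻¹ * ((b : Γ) * r) = r * ((a⁻¹ * b : H) : Γ) * r := by
                simp only [mul_inv_rev, hrinv, mul_assoc, Subgroup.coe_mul, Subgroup.coe_inv]
              rw [h2] at e
              exact (hL _ (a⁻¹ * b).2).1 e
      · intro q
        induction q using Quotient.inductionOn' with
        | h g =>
          by_cases hg : g ∈ M
          · refine ⟨none, ?_⟩
            show ((1 : Γ) : Γ ⧸ M) = ((g : Γ) : Γ ⧸ M)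
            rw [QuotientGroup.eq, inv_one, one_mul]
            exact hg
          · obtain ⟨h, hh, x, hx, rfl⟩ := hcov g hg
            refine ⟨some (Quotient.mk'' ⟨h, hh⟩), ?_⟩
            show ((h * r : Γ) : Γ ⧸ M) = ((h * r * x : Γ) : Γ ⧸ M)
            rw [QuotientGroup.eq, inv_mul_cancel_left]
            exact hx
    have hq : Finite (H ⧸ L.subgroupOf H) := Quotient.finite _
    rw [Subgroup.index, ← Nat.card_congr (Equiv.ofBijective f hf), Finite.card_option]
    rfl
  -- the index of `H` in `M`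
  have hMfin : Finite M := by
    let F : L × H → M := fun p => ⟨r * p.1 * r * p.2, (hM _).2 ⟨p.1, p.1.2, p.2, p.2.2, rfl⟩⟩
    refine Finite.of_surjective F ?_
    rintro ⟨g, hg⟩
    obtain ⟨l, hl, h, hh, rfl⟩ := (hM g).1 hg
    exact ⟨(⟨l, hl⟩, ⟨h, hh⟩), rfl⟩
  have h2 : H.relIndex M ≤ K.relIndex L := by
    have hmem : ∀ l : L, r * (l : Γ) * r ∈ M := fun l =>
      (hM _).2 ⟨l, l.2, 1, H.one_mem, by rw [mul_one]⟩
    let f : (L ⧸ K.subgroupOf L) → (M ⧸ H.subgroupOf M) := fun q =>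
      Quotient.liftOn' q (fun l : L => ((⟨r * (l : Γ) * r, hmem l⟩ : M) : M ⧸ H.subgroupOf M))
        (by
          intro a b hab
          rw [QuotientGroup.leftRel_apply, Subgroup.mem_subgroupOf] at hab
          rw [QuotientGroup.eq, Subgroup.mem_subgroupOf]
          have h3 : (((⟨r * (a : Γ) * r, hmem a⟩ : M)⁻¹ * ⟨r * (b : Γ) * r, hmem b⟩ : M) : Γ) =
              ((a⁻¹ * b : L) : Γ) := by
            simp only [Subgroup.coe_mul, Subgroup.coe_inv, mul_inv_rev, hrinv, mul_assoc, hrr]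
            have h4 := hc _ hab
            simp only [Subgroup.coe_mul, Subgroup.coe_inv, mul_assoc] at h4
            rw [h4, hrr]
          rw [h3]
          exact hLH (a⁻¹ * b).2)
    have hf : Function.Surjective f := by
      intro q
      induction q using Quotient.inductionOn' with
      | h g =>
        obtain ⟨g, hg⟩ := g
        obtain ⟨l, hl, h, hh, rfl⟩ := (hM g).1 hg
        refine ⟨Quotient.mk'' ⟨l, hl⟩, ?_⟩
        show ((⟨r * l * r, hmem ⟨l, hl⟩⟩ : M) : M ⧸ H.subgroupOf M) =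
          ((⟨r * l * r * h, hg⟩ : M) : M ⧸ H.subgroupOf M)
        rw [QuotientGroup.eq, Subgroup.mem_subgroupOf]
        have h3 : (((⟨r * l * r, hmem ⟨l, hl⟩⟩ : M)⁻¹ * ⟨r * l * r * h, hg⟩ : M) : Γ) = h := by
          simp only [Subgroup.coe_mul, Subgroup.coe_inv]
          rw [inv_mul_cancel_left]
        rw [h3]
        exact hh
    have hq : Finite (L ⧸ K.subgroupOf L) := Quotient.finite _
    exact Nat.card_le_card_of_surjective f hf
  have hfinΓ : Finite Γ := by
    have hne : M.index ≠ 0 := by rw [h1]; exact Nat.succ_ne_zero _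
    have hi : M.FiniteIndex := ⟨hne⟩
    have := hMfin
    have hfq : Finite (Γ ⧸ M) := inferInstance
    exact Finite.of_equiv _ (Subgroup.groupEquivQuotientProdSubgroup (s := M)).symm
  refine ⟨h1, h2, hfinΓ, ?_⟩
  have h3 : Nat.card M * M.index = Nat.card Γ := M.card_mul_index
  have h4 : Nat.card H * H.relIndex M = Nat.card M := by
    have h5 := (H.subgroupOf M).card_mul_index
    rw [Nat.card_congr (Subgroup.subgroupOfEquivOfLe hHM).toEquiv] at h5
    exact h5
  calc Nat.card Γ = Nat.card H * H.relIndex M * M.index := by rw [h4, h3]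
    _ ≤ Nat.card H * K.relIndex L * (L.relIndex H + 1) := by
      rw [h1]
      gcongr
    _ = (L.relIndex H + 1) * K.relIndex L * Nat.card H := by ring

end Pool.Agent.Helper23.UP
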