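import Pool.Agent.Helper23.UP.Defs

/-! # UP-2: chains of transpositions -/

namespace Pool.Agent.Helper23.UP

/-- Involutions `s 0, ..., s n` of `Ω` such that distant ones commute, all but the last one
fix `b0`, the last one is a transposition moving `b0`, and the group is transitive. -/
structure ChainData (Ω : Type) (n : ℕ) (s : ℕ → Equiv.Perm Ω) (b0 : Ω) : Prop where
  sq : ∀ i, i ≤ n → s i * s i = 1
  comm : ∀ i j, i + 2 ≤ j → j ≤ n → s i * s j = s j * s i
  fix : ∀ i, i < n → s i b0 = b0
  trans : ∀ x : Ω, ∃ g ∈ Subgroup.closure (s '' {i | i ≤ n}), g b0 = x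
  move : s n b0 ≠ b0
  top : ∀ x, x ≠ b0 → x ≠ s n b0 → s n x = x

/-- `b 0, ..., b (n - j + 1)` are distinct and `s i` swaps `b (n - i)` and `b (n - i + 1)`
for `j ≤ i ≤ n`. -/
structure Reach {Ω : Type} (n : ℕ) (s : ℕ → Equiv.Perm Ω) (b0 : Ω) (j : ℕ)
    (b : ℕ → Ω) : Prop where
  zero : b 0 = b0
  inj : ∀ k l, k ≤ n - j + 1 → l ≤ n - j + 1 → b k = b l → k = l
  mv : ∀ i, j ≤ i → i ≤ n → s i (b (n - i)) = b (n - i + 1)
  mv' : ∀ i, j ≤ i → i ≤ n → s i (b (n - i + 1)) = b (n - i)
  fx : ∀ i x, j ≤ i → i ≤ n → x ≠ b (n - i) → x ≠ b (n - i + 1) → s i x = x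

variable {Ω : Type} {n : ℕ} {s : ℕ → Equiv.Perm Ω} {b0 : Ω}

theorem ChainData.invol (h : ChainData Ω n s b0) (i : ℕ) (hi : i ≤ n) (x : Ω) :
    s i (s i x) = x := by
  have := congrArg (fun f : Equiv.Perm Ω => f x) (h.sq i hi)
  simpa using this

theorem ChainData.comm' (h : ChainData Ω n s b0) (i j : ℕ) (hij : i + 2 ≤ j) (hj : j ≤ n)
    (x : Ω) : s i (s j x) = s j (s i x) := by
  have := congrArg (fun f : Equiv.Perm Ω => f x) (h.comm i j hij hj)
  simpa using this

/-- the generators below the run fix all the points reached so far, except possibly the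
last point for the next generator -/
theorem chain_fix (h : ChainData Ω n s b0) (j : ℕ) (hj : j ≤ n) (b : ℕ → Ω)
    (hb : Reach n s b0 j b) (i k : ℕ) (hi : i < j) (hk : k ≤ n - j + 1)
    (hik : i + 1 < j ∨ k ≤ n - j) : s i (b k) = b k := by
  induction k with
  | zero => rw [hb.zero]; exact h.fix i (by omega)
  | succ k ih =>
    have h1 := ih (by omega) (by omega)
    have h2 := hb.mv (n - k) (by omega) (by omega)
    have e : n - (n - k) = k := by omega
    rw [e] at h2
    rw [← h2, h.comm' i (n - k) (by omega) (by omega), h1]

/-- a set of points invariant under the generators is everything -/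
theorem chain_all (h : ChainData Ω n s b0) (B : Set Ω) (h0 : b0 ∈ B)
    (hB : ∀ i, i ≤ n → ∀ x ∈ B, s i x ∈ B) (x : Ω) : x ∈ B := by
  obtain ⟨g, hg, rfl⟩ := h.trans x
  have key : ∀ y ∈ B, g y ∈ B := by
    induction hg using Subgroup.closure_induction with
    | mem f hf =>
      obtain ⟨i, hi, rfl⟩ := hf
      exact hB i hi
    | one => intro y hy; simpa using hy
    | mul f g _ _ hf hg => intro y hy; rw [Equiv.Perm.mul_apply]; exact hf _ (hg y hy)
    | inv f hf ih =>
      -- need finiteness free argument: inverse of a generator is itself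
      have : f⁻¹ ∈ Subgroup.closure (s '' {i | i ≤ n}) := inv_mem hf
      have hgen : ∀ f ∈ Subgroup.closure (s '' {i | i ≤ n}), ∀ y, (y ∈ B ↔ f y ∈ B) := by
        intro f hf
        induction hf using Subgroup.closure_induction with
        | mem f hf =>
          obtain ⟨i, hi, rfl⟩ := hf
          intro y
          refine ⟨hB i hi y, fun hy => ?_⟩
          have := hB i hi _ hy
          rwa [h.invol i hi] at this
        | one => intro y; simp
        | mul f g _ _ hf hg =>
          intro y; rw [Equiv.Perm.mul_apply, ← hf, ← hg]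
        | inv f _ ih =>
          intro y
          rw [ih (f⁻¹ y)]
          simp
      intro y hy
      exact (hgen _ this y).1 hy
  exact key b0 h0

/-- a run of entries `3` at the end of the symbol -/
theorem chain_reach (h : ChainData Ω n s b0) (j : ℕ) (hj : j ≤ n)
    (h3 : ∀ i, j ≤ i → i < n → (s i * s (i + 1)) ^ 3 = 1) :
    ∃ b : ℕ → Ω, Reach n s b0 j b := by
  obtain ⟨d, rfl⟩ : ∃ d, j = n - d := ⟨n - j, by omega⟩
  have key : ∀ d, d ≤ n → (∀ i, n - d ≤ i → i < n → (s i * s (i + 1)) ^ 3 = 1) →
      ∃ b : ℕ → Ω, Reach n s b0 (n - d) b := by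
    intro d
    induction d with
    | zero =>
      intro _ _
      refine ⟨fun k => if k = 0 then b0 else s n b0, ?_, ?_, ?_, ?_, ?_⟩
      · simp
      · intro k l hk hl hkl
        have hk' : k = 0 ∨ k = 1 := by omega
        have hl' : l = 0 ∨ l = 1 := by omega
        rcases hk' with rfl | rfl <;> rcases hl' with rfl | rfl
        · rfl
        · simp only [if_true, one_ne_zero, if_false] at hkl
          exact absurd hkl.symm h.move
        · simp only [if_true, one_ne_zero, if_false] at hkl
          exact absurd hkl h.move
        · rfl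
      · intro i hi hi'
        have : i = n := by omega
        subst this
        simp
      · intro i hi hi'
        have : i = n := by omega
        subst this
        simp [h.invol i le_rfl]
      · intro i x hi hi' hx hx'
        have : i = n := by omega
        subst this
        simp at hx hx'
        exact h.top x hx hx'
    | succ d ih =>
      intro hd h3
      obtain ⟨b, hb⟩ := ih (by omega) (fun i hi hi' => h3 i (by omega) hi')
      obtain ⟨j, hj⟩ : ∃ j, j = n - (d + 1) := ⟨_, rfl⟩
      have hj1 : n - d = j + 1 := by omega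
      rw [← hj]
      rw [hj1] at hb
      have hjn : j < n := by omega
      set u := b (n - (j + 1)) with hu
      set v := b (n - j) with hv
      have hnj : n - (j + 1) + 1 = n - j := by omega
      have m1 : s (j + 1) u = v := by
        have := hb.mv (j + 1) le_rfl (by omega)
        rwa [hnj] at this
      have m2 : s (j + 1) v = u := by
        have := hb.mv' (j + 1) le_rfl (by omega)
        rwa [hnj] at this
      have hju : s j u = u := chain_fix h (j + 1) (by omega) b hb j _ (by omega) (by omega)
        (Or.inr le_rfl)
      have huv : u ≠ v := by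
        intro he
        have := hb.inj (n - (j + 1)) (n - j) (by omega) (by omega) he
        omega
      set c := s j v with hc
      have hjc : s j c = v := h.invol j (by omega) v
      -- the braid relation
      have hbr : ∀ x, s j (s (j + 1) (s j x)) = s (j + 1) (s j (s (j + 1) x)) := by
        intro x
        have h3' := h3 j (by omega) hjn
        have h4 := congrArg (fun f : Equiv.Perm Ω => f (s (j + 1) (s j (s (j + 1) x)))) h3'
        simp only [pow_succ, pow_zero, one_mul, Equiv.Perm.mul_apply, Equiv.Perm.one_apply]
          at h4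
        rw [h.invol (j + 1) (by omega), h.invol j (by omega), h.invol (j + 1) (by omega)] at h4
        exact h4
      have hsc : s (j + 1) c = c := by
        have := hbr u
        rw [hju, m1] at this
        exact this.symm
      have hcu : c ≠ u := by
        intro he; rw [he, m1] at hsc; exact huv hsc.symm
      have hcv : c ≠ v := by
        intro he; rw [he, m2] at hsc; exact huv hsc
      have hcb : ∀ k, k ≤ n - j → c ≠ b k := by
        intro k hk he
        by_cases hkj : k = n - j
        · rw [hkj] at he; exact hcv he
        · have : s j (b k) = b k := chain_fix h (j + 1) (by omega) b hb j k (by omega)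
            (by omega) (Or.inr (by omega))
          rw [← he, hjc] at this
          exact hcv this.symm
      have hfx : ∀ x, x ≠ v → x ≠ c → s j x = x := by
        intro x hxv hxc
        have h5 : s j x = s (j + 1) (s j (s (j + 1) (s j (s (j + 1) x)))) := by
          rw [hbr (s (j + 1) x), h.invol (j + 1) (by omega), h.invol (j + 1) (by omega)]
        set y := s (j + 1) x with hy
        set z := s j y with hz
        have hzu : z ≠ u := by
          intro he
          have : y = u := by rw [← h.invol j (by omega) y, ← hz, he, hju]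
          have : x = v := by rw [← h.invol (j + 1) (by omega) x, ← hy, this, m1]
          exact hxv this
        have hzv : z ≠ v := by
          intro he
          have : y = c := by rw [← h.invol j (by omega) y, ← hz, he]
          have : x = c := by rw [← h.invol (j + 1) (by omega) x, ← hy, this, hsc]
          exact hxc this
        have hsz : s (j + 1) z = z := by
          refine hb.fx (j + 1) z le_rfl (by omega) hzu ?_
          rw [hnj]; exact hzv
        rw [h5, hsz, hz, h.invol j (by omega), hy, h.invol (j + 1) (by omega)]
      refine ⟨fun k => if k = n - j + 1 then c else b k, ?_, ?_, ?_, ?_, ?_⟩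
      · simp [hb.zero]
      · intro k l hk hl hkl
        by_cases h1 : k = n - j + 1 <;> by_cases h2 : l = n - j + 1
        · omega
        · simp only [h1, if_true, h2, if_false] at hkl
          exact absurd hkl (hcb l (by omega))
        · simp only [h2, if_true, h1, if_false] at hkl
          exact absurd hkl.symm (hcb k (by omega))
        · simp only [h1, h2, if_false] at hkl
          exact hb.inj k l (by omega) (by omega) hkl
      · intro i hi hi'
        have e1 : ¬ (n - i = n - j + 1) := by omega
        simp only [e1, if_false]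
        by_cases hij : i = j
        · subst hij
          simp only [if_true]
          exact hc.symm
        · have e2 : ¬ (n - i + 1 = n - j + 1) := by omega
          simp only [e2, if_false]
          exact hb.mv i (by omega) hi'
      · intro i hi hi'
        have e1 : ¬ (n - i = n - j + 1) := by omega
        simp only [e1, if_false]
        by_cases hij : i = j
        · subst hij
          simp only [if_true]
          exact hjc
        · have e2 : ¬ (n - i + 1 = n - j + 1) := by omega
          simp only [e2, if_false]
          exact hb.mv' i (by omega) hi'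
      · intro i x hi hi'
        have e1 : ¬ (n - i = n - j + 1) := by omega
        simp only [e1, if_false]
        by_cases hij : i = j
        · subst hij
          simp only [if_true]
          exact fun h1 h2 => hfx x h1 h2
        · have e2 : ¬ (n - i + 1 = n - j + 1) := by omega
          simp only [e2, if_false]
          exact hb.fx i x (by omega) hi'
  by_cases hd : d ≤ n
  · exact key d hd h3
  · have : n - d = n - n := by omega
    rw [this] at h3 ⊢
    exact key n le_rfl h3

/-- an entry prime to `3` before the run -/
theorem chain_end (h : ChainData Ω n s b0) (j : ℕ) (hj : j < n) (b : ℕ → Ω)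
    (hb : Reach n s b0 (j + 1) b) (p : ℕ) (hp : ¬ 3 ∣ p)
    (hsp : (s j * s (j + 1)) ^ p = 1) :
    (∀ x : Ω, ∃ k, k ≤ n - j ∧ x = b k) ∧ s j = 1 := by
  set u := b (n - (j + 1)) with hu
  set v := b (n - j) with hv
  have hnj : n - (j + 1) + 1 = n - j := by omega
  have m1 : s (j + 1) u = v := by
    have := hb.mv (j + 1) le_rfl (by omega)
    rwa [hnj] at this
  have m2 : s (j + 1) v = u := by
    have := hb.mv' (j + 1) le_rfl (by omega)
    rwa [hnj] at this
  have hju : s j u = u := chain_fix h (j + 1) (by omega) b hb j _ (by omega) (by omega)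
    (Or.inr le_rfl)
  have huv : u ≠ v := by
    intro he
    have := hb.inj (n - (j + 1)) (n - j) (by omega) (by omega) he
    omega
  have hjv : s j v = v := by
    by_contra hne
    set X := s j v with hX
    have hXu : X ≠ u := by
      intro he
      apply huv
      rw [← he, hX]
      have : s j (s j v) = s j u := by rw [← hX, he]
      rw [h.invol j (by omega), hju] at this
      exact absurd this.symm huv
    have hsX : s (j + 1) X = X := by
      refine hb.fx (j + 1) X le_rfl (by omega) hXu ?_
      rw [hnj]; exact hne
    set f := s j * s (j + 1) with hf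
    have f1 : f u = X := by rw [hf, Equiv.Perm.mul_apply, m1]
    have f2 : f X = v := by rw [hf, Equiv.Perm.mul_apply, hsX, hX, h.invol j (by omega)]
    have f3 : f v = u := by rw [hf, Equiv.Perm.mul_apply, m2, hju]
    have f4 : ∀ q, (f ^ (3 * q)) u = u := by
      intro q
      induction q with
      | zero => simp
      | succ q ih =>
        rw [mul_add, mul_one, pow_add, Equiv.Perm.mul_apply]
        have : (f ^ 3) u = u := by
          simp only [pow_succ, pow_zero, one_mul, Equiv.Perm.mul_apply, f1, f2, f3]
        rw [this, ih]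
    have hr : p % 3 = 1 ∨ p % 3 = 2 := by omega
    have h6 : (f ^ p) u = u := by rw [hsp]; rfl
    have hdec : p = p % 3 + 3 * (p / 3) := by omega
    rw [hdec, pow_add, Equiv.Perm.mul_apply, f4] at h6
    rcases hr with hr | hr
    · rw [hr, pow_one, f1] at h6
      exact hXu h6
    · rw [hr] at h6
      simp only [pow_succ, pow_zero, one_mul, Equiv.Perm.mul_apply, f1, f2] at h6
      exact huv h6.symm
  have hall : ∀ x : Ω, ∃ k, k ≤ n - j ∧ x = b k := by
    refine chain_all h {x | ∃ k, k ≤ n - j ∧ x = b k} ⟨0, by omega, hb.zero.symm⟩ ?_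
    rintro i hi x ⟨k, hk, rfl⟩
    rcases Nat.lt_trichotomy i j with hij | hij | hij
    · exact ⟨k, hk, chain_fix h (j + 1) (by omega) b hb i k (by omega) (by omega)
        (Or.inl (by omega))⟩
    · subst hij
      by_cases hkj : k = n - i
      · refine ⟨k, hk, ?_⟩
        rw [hkj]; exact hjv
      · exact ⟨k, hk, chain_fix h (i + 1) (by omega) b hb i k (by omega) (by omega)
          (Or.inr (by omega))⟩
    · by_cases h1 : k = n - i
      · refine ⟨n - i + 1, by omega, ?_⟩
        rw [h1]; exact hb.mv i (by omega) hi
      · by_cases h2 : k = n - i + 1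
        · refine ⟨n - i, by omega, ?_⟩
          rw [h2]; exact hb.mv' i (by omega) hi
        · refine ⟨k, hk, hb.fx i _ (by omega) hi ?_ ?_⟩
          · intro he; exact h1 (hb.inj _ _ (by omega) (by omega) he)
          · intro he; exact h2 (hb.inj _ _ (by omega) (by omega) he)
  refine ⟨hall, ?_⟩
  ext x
  obtain ⟨k, hk, rfl⟩ := hall x
  by_cases hkj : k = n - j
  · rw [hkj]; exact hjv
  · exact chain_fix h (j + 1) (by omega) b hb j k (by omega) (by omega) (Or.inr (by omega))

/-- the run comes down to the first generator but one -/
theorem chain_full (h : ChainData Ω n s b0) (hn : 1 ≤ n) (b : ℕ → Ω)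
    (hb : Reach n s b0 1 b) :
    ((∀ x : Ω, ∃ k, k ≤ n ∧ x = b k) ∧ s 0 = 1) ∨
      ∃ c : Ω, (∀ k, k ≤ n → c ≠ b k) ∧ s 0 (b n) = c ∧ s 0 c = b n ∧
        (∀ x, x ≠ b n → x ≠ c → s 0 x = x) ∧ ∀ x : Ω, x = c ∨ ∃ k, k ≤ n ∧ x = b k := by
  have hfix : ∀ k, k < n → s 0 (b k) = b k := fun k hk =>
    chain_fix h 1 hn b hb 0 k (by omega) (by omega) (Or.inr (by omega))
  have hst : ∀ i, 1 ≤ i → i ≤ n → ∀ k, k ≤ n → ∃ l, l ≤ n ∧ s i (b k) = b l := by
    intro i hi hi' k hk
    by_cases h1 : k = n - i
    · refine ⟨n - i + 1, by omega, ?_⟩
      rw [h1]; exact hb.mv i hi hi'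
    · by_cases h2 : k = n - i + 1
      · refine ⟨n - i, by omega, ?_⟩
        rw [h2]; exact hb.mv' i hi hi'
      · refine ⟨k, hk, hb.fx i _ hi hi' ?_ ?_⟩
        · intro he; exact h1 (hb.inj _ _ (by omega) (by omega) he)
        · intro he; exact h2 (hb.inj _ _ (by omega) (by omega) he)
  by_cases h0 : s 0 (b n) = b n
  · left
    have hall : ∀ x : Ω, ∃ k, k ≤ n ∧ x = b k := by
      refine chain_all h {x | ∃ k, k ≤ n ∧ x = b k} ⟨0, by omega, hb.zero.symm⟩ ?_
      rintro i hi x ⟨k, hk, rfl⟩
      rcases Nat.eq_zero_or_pos i with hi0 | hi0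
      · subst hi0
        by_cases hkn : k = n
        · exact ⟨k, hk, by rw [hkn]; exact h0⟩
        · exact ⟨k, hk, hfix k (by omega)⟩
      · exact hst i hi0 hi k hk
    refine ⟨hall, ?_⟩
    ext x
    obtain ⟨k, hk, rfl⟩ := hall x
    by_cases hkn : k = n
    · rw [hkn]; exact h0
    · exact hfix k (by omega)
  · right
    set c := s 0 (b n) with hc
    have h0c : s 0 c = b n := h.invol 0 (by omega) _
    have hcb : ∀ k, k ≤ n → c ≠ b k := by
      intro k hk he
      by_cases hkn : k = n
      · rw [hkn] at he; exact h0 he
      · have := hfix k (by omega)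
        rw [← he, h0c] at this
        exact h0 this.symm
    have hall : ∀ x : Ω, x = c ∨ ∃ k, k ≤ n ∧ x = b k := by
      refine chain_all h {x | x = c ∨ ∃ k, k ≤ n ∧ x = b k}
        (Or.inr ⟨0, by omega, hb.zero.symm⟩) ?_
      rintro i hi x (rfl | ⟨k, hk, rfl⟩)
      · rcases Nat.eq_zero_or_pos i with hi0 | hi0
        · subst hi0
          exact Or.inr ⟨n, le_rfl, h0c⟩
        · exact Or.inl (hb.fx i c hi0 hi (hcb _ (by omega)) (hcb _ (by omega)))
      · rcases Nat.eq_zero_or_pos i with hi0 | hi0
        · subst hi0
          by_cases hkn : k = n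
          · exact Or.inl (by rw [hkn])
          · exact Or.inr ⟨k, hk, hfix k (by omega)⟩
        · exact Or.inr (hst i hi0 hi k hk)
    refine ⟨c, hcb, rfl, h0c, ?_, hall⟩
    intro x hx hxc
    rcases hall x with h1 | ⟨k, hk, rfl⟩
    · exact absurd h1 hxc
    · exact hfix k (by
        rcases Nat.lt_or_ge k n with h2 | h2
        · exact h2
        · exact absurd (by rw [show k = n by omega]) hx)

end Pool.Agent.Helper23.UP
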