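import Mathlib

/-!
# Universal regular polytopes: definitions (problem MP_f11cdf_co)

Abstract regular polytopes of rank `m` are treated as string C-groups `(G, ρ)`,
`ρ : Fin m → G` (McMullen and Schulte): the group of automorphisms with its distinguished
generators.
-/

namespace Pool.Agent.Helper23.UP

/-- The subgroup generated by the `ρ i` with `i ∈ I`. -/
def par {G : Type} [Group G] {m : ℕ} (ρ : Fin m → G) (I : Set (Fin m)) : Subgroup G :=
  Subgroup.closure (ρ '' I)

/-- `(G, ρ)` is a string C-group of rank `m`: the group of a regular `m`-polytope. -/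
structure IsStringC {G : Type} [Group G] {m : ℕ} (ρ : Fin m → G) : Prop where
  sq : ∀ i, ρ i * ρ i = 1
  ne : ∀ i, ρ i ≠ 1
  comm : ∀ i j : Fin m, (i : ℕ) + 2 ≤ j → ρ i * ρ j = ρ j * ρ i
  gen : par ρ Set.univ = ⊤
  inter : ∀ I J : Set (Fin m), par ρ I ⊓ par ρ J = par ρ (I ∩ J)

/-- The group of the base facet (all generators but the last one). -/
def facetSub {G : Type} [Group G] {n : ℕ} (σ : Fin n → G) : Subgroup G :=
  par σ {i | (i : ℕ) + 1 ≠ n}

/-- The group of the base ridge (the base face of rank `n - 2`). -/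
def ridgeSub {G : Type} [Group G] {n : ℕ} (σ : Fin n → G) : Subgroup G :=
  par σ {i | (i : ℕ) + 2 ≠ n}

/-- The facets `g K` and `g' K` (`K` the group of the base facet) contain a common ridge
`h R` (`R` the group of the base ridge); a facet and a ridge are incident if their cosets
meet. -/
def Share {G : Type} [Group G] {n : ℕ} (σ : Fin n → G) (g g' : G) : Prop :=
  ∃ h : G, (∃ k ∈ facetSub σ, ∃ r ∈ ridgeSub σ, g * k = h * r) ∧
    ∃ k ∈ facetSub σ, ∃ r ∈ ridgeSub σ, g' * k = h * r

/-- `(Γ, ρ)` is a regular `(n+1)`-polytope with facets `(G, σ)` and vertex-figures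
`(W, τ)`. -/
structure HasFV {G W Γ : Type} [Group G] [Group W] [Group Γ] {n : ℕ} (σ : Fin n → G)
    (τ : Fin n → W) (ρ : Fin (n + 1) → Γ) : Prop where
  str : IsStringC ρ
  fac : ∃ f : G →* Γ, Function.Injective f ∧ ∀ i : Fin n, f (σ i) = ρ i.castSucc
  ver : ∃ g : W →* Γ, Function.Injective g ∧ ∀ i : Fin n, g (τ i) = ρ i.succ

/-- Isomorphic regular polytopes. -/
def StrIso {G G' : Type} [Group G] [Group G'] {n : ℕ} (σ : Fin n → G) (σ' : Fin n → G') :
    Prop :=
  ∃ e : G ≃* G', ∀ i, e (σ i) = σ' i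

/-- The entry of the Schläfli symbol between the generators `i` and `i + 1`. -/
noncomputable def sch {G : Type} [Group G] {n : ℕ} (σ : Fin n → G) (i : ℕ)
    (h : i + 1 < n) : ℕ :=
  orderOf (σ ⟨i, Nat.lt_of_succ_lt h⟩ * σ ⟨i + 1, h⟩)

/-- The cyclic group of order two. -/
abbrev C2 : Type := Multiplicative (ZMod 2)

/-- The generator of `C2`. -/
def z2 : C2 := Multiplicative.ofAdd 1

/-- The simplex of rank `k`. -/
def smp (k : ℕ) : Fin k → Equiv.Perm (Fin (k + 1)) := fun i =>
  Equiv.swap i.castSucc i.succ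

/-- The polytope `{2, 3, ..., 3}` of rank `k`. -/
def dig (k : ℕ) : Fin k → C2 × Equiv.Perm (Fin k) := fun i =>
  if h : (i : ℕ) = 0 then (z2, 1)
  else (1, Equiv.swap ⟨(i : ℕ) - 1, by have := i.isLt; omega⟩ i)

/-- The polytope of type `{6, 3, ..., 3}` and rank `k` with group `C2 × S_(k+1)`. -/
def dbl (k : ℕ) : Fin k → C2 × Equiv.Perm (Fin (k + 1)) := fun i =>
  (if (i : ℕ) = 0 then z2 else 1, smp k i)

end Pool.Agent.Helper23.UP
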