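import Pool.Agent.Helper23.UP.Defs

/-! # UP-3: adjacent facets and double cosets -/

namespace Pool.Agent.Helper23.UP

variable {G : Type} [Group G] {n : ℕ}

private lemma par_mono' (σ : Fin n → G) {I J : Set (Fin n)} (h : I ⊆ J) :
    par σ I ≤ par σ J :=
  Subgroup.closure_mono (Set.image_mono h)

private lemma mem_par_of (σ : Fin n → G) {I : Set (Fin n)} {i : Fin n} (h : i ∈ I) :
    σ i ∈ par σ I :=
  Subgroup.subset_closure ⟨i, h, rfl⟩

private lemma comm_last (hn : 2 ≤ n) (σ : Fin n → G) (hσ : IsStringC σ) (a : G)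
    (ha : a ∈ par σ {i | (i : ℕ) + 2 < n}) :
    a * σ ⟨n - 1, by omega⟩ = σ ⟨n - 1, by omega⟩ * a := by
  have hle : par σ {i | (i : ℕ) + 2 < n} ≤
      Subgroup.centralizer {σ ⟨n - 1, by omega⟩} := by
    refine (Subgroup.closure_le _).2 ?_
    rintro _ ⟨i, hi, rfl⟩
    simp only [SetLike.mem_coe, Subgroup.mem_centralizer_singleton_iff]
    have hi' : (i : ℕ) + 2 < n := hi
    exact (hσ.comm i ⟨n - 1, by omega⟩ (by simp only; omega))
  have := hle ha
  rw [Subgroup.mem_centralizer_singleton_iff] at this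
  exact this

private lemma ridge_dec (hn : 2 ≤ n) (σ : Fin n → G) (hσ : IsStringC σ) (r : G)
    (hr : r ∈ ridgeSub σ) : ∃ a ∈ par σ {i | (i : ℕ) + 2 < n},
      r = a ∨ r = a * σ ⟨n - 1, by omega⟩ := by
  have hsq := hσ.sq ⟨n - 1, by omega⟩
  have hc := comm_last hn σ hσ
  set s := σ ⟨n - 1, by omega⟩ with hs
  set A := par σ {i | (i : ℕ) + 2 < n} with hA
  refine Subgroup.closure_induction (p := fun x _ => ∃ a ∈ A, x = a ∨ x = a * s)
    ?_ ?_ ?_ ?_ hr
  · rintro _ ⟨i, hi, rfl⟩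
    have hi' : (i : ℕ) + 2 ≠ n := hi
    rcases Nat.lt_or_ge ((i : ℕ) + 2) n with h | h
    · exact ⟨σ i, mem_par_of σ h, Or.inl rfl⟩
    · refine ⟨1, A.one_mem, Or.inr ?_⟩
      have : i = ⟨n - 1, by omega⟩ := by
        apply Fin.ext
        simp only
        have := i.isLt
        omega
      rw [one_mul, hs, this]
  · exact ⟨1, A.one_mem, Or.inl rfl⟩
  · rintro x y - - ⟨a, ha, hx⟩ ⟨b, hb, hy⟩
    refine ⟨a * b, A.mul_mem ha hb, ?_⟩
    rcases hx with rfl | rfl <;> rcases hy with rfl | rfl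
    · exact Or.inl rfl
    · exact Or.inr (by rw [mul_assoc])
    · refine Or.inr ?_
      rw [mul_assoc, ← hc _ hb, mul_assoc]
    · refine Or.inl ?_
      rw [mul_assoc, ← mul_assoc s, ← hc b hb, mul_assoc b, hsq, mul_one]
  · rintro x - ⟨a, ha, hx⟩
    refine ⟨a⁻¹, A.inv_mem ha, ?_⟩
    have hsi : s⁻¹ = s := inv_eq_of_mul_eq_one_left hsq
    rcases hx with rfl | rfl
    · exact Or.inl rfl
    · refine Or.inr ?_
      rw [mul_inv_rev, hsi, hc _ (A.inv_mem ha)]

/-- facets sharing a ridge -/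
theorem share_iff (hn : 2 ≤ n) (σ : Fin n → G) (hσ : IsStringC σ) (g g' : G) :
    Share σ g g' ↔ (g⁻¹ * g' ∈ facetSub σ ∨
      ∃ a ∈ facetSub σ, ∃ b ∈ facetSub σ, g⁻¹ * g' = a * σ ⟨n - 1, by omega⟩ * b) := by
  have hAK : par σ {i | (i : ℕ) + 2 < n} ≤ facetSub σ :=
    par_mono' σ (fun i hi => by
      have hi' : (i : ℕ) + 2 < n := hi
      show (i : ℕ) + 1 ≠ n
      omega)
  constructor
  · rintro ⟨h, ⟨k, hk, r, hr, e1⟩, ⟨k', hk', r', hr', e2⟩⟩
    have hg : g = h * r * k⁻¹ := by rw [← e1]; group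
    have hg' : g' = h * r' * k'⁻¹ := by rw [← e2]; group
    have e3 : g⁻¹ * g' = k * (r⁻¹ * r') * k'⁻¹ := by
      rw [hg, hg']; group
    obtain ⟨a, ha, h1 | h1⟩ := ridge_dec hn σ hσ (r⁻¹ * r')
      (Subgroup.mul_mem _ (Subgroup.inv_mem _ hr) hr')
    · left
      rw [e3, h1]
      exact Subgroup.mul_mem _ (Subgroup.mul_mem _ hk (hAK ha)) (Subgroup.inv_mem _ hk')
    · right
      refine ⟨k * a, Subgroup.mul_mem _ hk (hAK ha), k'⁻¹, Subgroup.inv_mem _ hk', ?_⟩
      rw [e3, h1]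
      group
  · rintro (h | ⟨a, ha, b, hb, h⟩)
    · refine ⟨g, ⟨1, Subgroup.one_mem _, 1, Subgroup.one_mem _, rfl⟩,
        ⟨(g⁻¹ * g')⁻¹, Subgroup.inv_mem _ h, 1, Subgroup.one_mem _, ?_⟩⟩
      group
    · refine ⟨g * a, ⟨a, ha, 1, Subgroup.one_mem _, by rw [mul_one]⟩,
        ⟨b⁻¹, Subgroup.inv_mem _ hb, σ ⟨n - 1, by omega⟩, mem_par_of σ ?_, ?_⟩⟩
      · show (n - 1) + 2 ≠ n
        omega
      · have : g' = g * (a * σ ⟨n - 1, by omega⟩ * b) := by rw [← h]; group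
        rw [this]
        group

/-- the last generator is not in the group of the base facet -/
theorem last_not_mem (hn : 1 ≤ n) (σ : Fin n → G) (hσ : IsStringC σ) :
    σ ⟨n - 1, by omega⟩ ∉ facetSub σ := by
  intro h
  have h2 : σ ⟨n - 1, by omega⟩ ∈ par σ {⟨n - 1, by omega⟩} := mem_par_of σ rfl
  have h3 : σ ⟨n - 1, by omega⟩ ∈ facetSub σ ⊓ par σ {⟨n - 1, by omega⟩} := ⟨h, h2⟩
  unfold facetSub at h3
  rw [hσ.inter] at h3
  have he : ({i : Fin n | (i : ℕ) + 1 ≠ n} ∩ {⟨n - 1, by omega⟩} : Set (Fin n)) = ∅ := by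
    ext i
    simp only [Set.mem_inter_iff, Set.mem_ofPred_eq, Set.mem_singleton_iff,
      Set.mem_empty_iff_false, iff_false, not_and]
    intro h1 h2
    apply h1
    rw [h2]
    simp only
    omega
  rw [he] at h3
  simp only [par, Set.image_empty, Subgroup.closure_empty, Subgroup.mem_bot] at h3
  exact hσ.ne _ h3

theorem par_map {G' : Type} [Group G'] (f : G →* G') (σ : Fin n → G) (I : Set (Fin n)) :
    (par σ I).map f = par (fun i => f (σ i)) I := by
  unfold par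
  rw [MonoidHom.map_closure, Set.image_image]

/-- parabolic subgroups of the facet group inside the big group -/
theorem par_castSucc {Γ : Type} [Group Γ] (ρ : Fin (n + 1) → Γ) (I : Set (Fin n)) :
    par (fun i => ρ i.castSucc) I = par ρ (Fin.castSucc '' I) := by
  unfold par
  rw [Set.image_image]

theorem par_succ {Γ : Type} [Group Γ] (ρ : Fin (n + 1) → Γ) (I : Set (Fin n)) :
    par (fun i => ρ i.succ) I = par ρ (Fin.succ '' I) := by
  unfold par
  rw [Set.image_image]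

end Pool.Agent.Helper23.UP
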