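import Pool.Agent.Helper23.UP.Block
import Pool.Agent.Helper23.UP.Chain
import Pool.Agent.Helper23.UP.ShareLem

/-! # UP-7: finiteness and the shape of the vertex-figure -/

namespace Pool.Agent.Helper23.UP

variable {G W Γ : Type} [Group G] [Group W] [Group Γ]

theorem braid_of_order {s r : Γ} (hs : s * s = 1) (hr : r * r = 1) (h : (s * r) ^ 3 = 1) :
    s * r * s = r * s * r := by
  have h1 : s * r * s * (r * s * r) = 1 := by
    have : (s * r) ^ 3 = s * r * s * (r * s * r) := by
      simp only [pow_succ, pow_zero, one_mul, mul_assoc]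
    rw [← this, h]
  have h2 : (r * s * r) * (r * s * r) = 1 := by
    calc (r * s * r) * (r * s * r) = r * s * (r * r) * s * r := by simp only [mul_assoc]
      _ = 1 := by rw [hr, mul_one, mul_assoc r s s, hs, mul_one, hr]
  calc s * r * s = s * r * s * ((r * s * r) * (r * s * r)) := by rw [h2, mul_one]
    _ = (s * r * s * (r * s * r)) * (r * s * r) := by simp only [mul_assoc]
    _ = r * s * r := by rw [h1, one_mul]

/-- the group of the facets inside the big group -/
theorem range_eq_par {n : ℕ} (σ : Fin n → G) (ρ : Fin (n + 1) → Γ) (hσ : IsStringC σ)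
    (f : G →* Γ) (hf : ∀ i : Fin n, f (σ i) = ρ i.castSucc) :
    f.range = par ρ (Fin.castSucc '' Set.univ) := by
  rw [← par_castSucc, ← show (fun i => f (σ i)) = (fun i => ρ i.castSucc) from funext hf,
    ← par_map, hσ.gen, MonoidHom.range_eq_map]

theorem last_not_mem_range {n : ℕ} (σ : Fin n → G) (ρ : Fin (n + 1) → Γ)
    (hσ : IsStringC σ) (hρ : IsStringC ρ) (f : G →* Γ)
    (hf : ∀ i : Fin n, f (σ i) = ρ i.castSucc) : ρ (Fin.last n) ∉ f.range := by
  intro h
  rw [range_eq_par σ ρ hσ f hf] at h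
  have h1 : ρ (Fin.last n) ∈ par ρ {Fin.last n} :=
    Subgroup.subset_closure ⟨_, rfl, rfl⟩
  have h2 : ρ (Fin.last n) ∈ par ρ {Fin.last n} ⊓ par ρ (Fin.castSucc '' Set.univ) :=
    ⟨h1, h⟩
  rw [hρ.inter] at h2
  have h3 : ({Fin.last n} ∩ Fin.castSucc '' Set.univ : Set (Fin (n + 1))) = ∅ := by
    ext x
    simp only [Set.mem_inter_iff, Set.mem_singleton_iff, Set.image_univ, Set.mem_range,
      Set.mem_empty_iff_false, iff_false, not_and, not_exists]
    rintro rfl y hy
    exact (Fin.castSucc_lt_last y).ne hy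
  rw [h3] at h2
  simp only [par, Set.image_empty, Subgroup.closure_empty, Subgroup.mem_bot] at h2
  exact hρ.ne _ h2

/-- the set up: the block system of the big polytope -/
theorem setup (n : ℕ) (hn : 3 ≤ n) (σ : Fin n → G) (τ : Fin n → W)
    (ρ : Fin (n + 1) → Γ) (hfin : Finite G) (hσ : IsStringC σ) (hP : HasFV σ τ ρ)
    (hlast : sch τ (n - 2) (by omega) = 3) (L : Subgroup G)
    (hL : ∀ g, g ∈ L ↔ (g ∈ facetSub σ ∨ ¬ Share σ 1 g)) :
    ∃ M : Subgroup Γ, M.index = L.index + 1 ∧ Finite Γ ∧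
      Nat.card Γ ≤ (L.index + 1) * (facetSub σ).relIndex L * Nat.card G ∧
      ChainData (Γ ⧸ M) n (fun i => MulAction.toPermHom Γ (Γ ⧸ M) (ρ (Fin.ofNat (n + 1) i)))
        ((1 : Γ) : Γ ⧸ M) ∧
      ((facetSub σ = L) → ∀ f : G →* Γ, (∀ i : Fin n, f (σ i) = ρ i.castSucc) →
        M = f.range) := by
  obtain ⟨hρ, ⟨f, hfi, hf⟩, ⟨g, hgi, hg⟩⟩ := hP
  set r := ρ (Fin.last n) with hr_def
  set lst : Fin n := ⟨n - 1, by omega⟩ with hlst
  set s := f (σ lst) with hs_def
  have hsρ : s = ρ lst.castSucc := hf lst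
  have hKL' : facetSub σ ≤ L := fun x hx => (hL x).2 (Or.inl hx)
  have hKL : (facetSub σ).map f ≤ L.map f := Subgroup.map_mono hKL'
  have hLH : L.map f ≤ f.range := by
    rintro _ ⟨x, -, rfl⟩; exact ⟨x, rfl⟩
  have hsH : s ∈ f.range := ⟨_, rfl⟩
  have hlastL : σ lst ∉ L := by
    intro h
    rcases (hL _).1 h with h1 | h1
    · exact last_not_mem (by omega) σ hσ h1
    · apply h1
      rw [share_iff (by omega) σ hσ]
      right
      exact ⟨1, one_mem _, 1, one_mem _, by simp [hlst]⟩
  have hsL : s ∉ L.map f := by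
    rintro ⟨x, hx, hxs⟩
    have : x = σ lst := hfi hxs
    exact hlastL (this ▸ hx)
  have hHL : ∀ h ∈ f.range, h ∉ L.map f →
      ∃ a ∈ (facetSub σ).map f, ∃ b ∈ (facetSub σ).map f, h = a * s * b := by
    rintro _ ⟨x, rfl⟩ hx
    have hxL : x ∉ L := fun h => hx ⟨x, h, rfl⟩
    rw [hL, not_or, not_not] at hxL
    obtain ⟨h1, h2⟩ := hxL
    rw [share_iff (by omega) σ hσ] at h2
    rcases h2 with h2 | ⟨a, ha, b, hb, hab⟩
    · simp only [inv_one, one_mul] at h2
      exact absurd h2 h1
    · simp only [inv_one, one_mul] at hab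
      refine ⟨f a, ⟨a, ha, rfl⟩, f b, ⟨b, hb, rfl⟩, ?_⟩
      rw [hab, map_mul, map_mul]
  have hr : r * r = 1 := hρ.sq _
  have hs : s * s = 1 := by rw [hsρ]; exact hρ.sq _
  have hbr : s * r * s = r * s * r := by
    refine braid_of_order hs hr ?_
    have h1 := pow_orderOf_eq_one (τ ⟨n - 2, by omega⟩ * τ ⟨n - 2 + 1, by omega⟩)
    have h2 : orderOf (τ ⟨n - 2, by omega⟩ * τ ⟨n - 2 + 1, by omega⟩) = 3 := hlast
    rw [h2] at h1
    have h3 := congrArg g h1
    rw [map_pow, map_mul, map_one, hg, hg] at h3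
    have e1 : (⟨n - 2, by omega⟩ : Fin n).succ = lst.castSucc := by
      apply Fin.ext; simp only [Fin.val_succ, Fin.val_castSucc, hlst]; omega
    have e2 : (⟨n - 2 + 1, by omega⟩ : Fin n).succ = Fin.last n := by
      apply Fin.ext; simp only [Fin.val_succ, Fin.val_last]; omega
    rw [e1, e2, ← hsρ] at h3
    exact h3
  have hc : ∀ k ∈ (facetSub σ).map f, k * r = r * k := by
    rintro _ ⟨x, hx, rfl⟩
    have hx' : x ∈ Subgroup.closure (σ '' {i | (i : ℕ) + 1 ≠ n}) := hx
    induction hx' using Subgroup.closure_induction with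
    | mem y hy =>
      obtain ⟨i, hi, rfl⟩ := hy
      rw [hf]
      refine hρ.comm _ _ ?_
      simp only [Fin.val_castSucc, Fin.val_last]
      have := i.isLt
      have hi' : (i : ℕ) + 1 ≠ n := hi
      omega
    | one => simp
    | mul a b ha hb iha ihb =>
      rw [map_mul, mul_assoc, ihb hb, ← mul_assoc, iha ha, mul_assoc]
    | inv a ha iha =>
      have := iha ha
      rw [map_inv]
      calc (f a)⁻¹ * r = (f a)⁻¹ * (r * f a) * (f a)⁻¹ := by simp [mul_assoc]
        _ = (f a)⁻¹ * (f a * r) * (f a)⁻¹ := by rw [this]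
        _ = r * (f a)⁻¹ := by simp [mul_assoc]
  have hrH : r ∉ f.range := last_not_mem_range σ ρ hσ hρ f hf
  have hgen : Subgroup.closure ((f.range : Set Γ) ∪ {r}) = ⊤ := by
    rw [eq_top_iff, ← hρ.gen]
    refine Subgroup.closure_mono ?_
    rintro _ ⟨i, -, rfl⟩
    rcases Fin.eq_castSucc_or_eq_last i with ⟨j, rfl⟩ | rfl
    · left; exact ⟨σ j, hf j⟩
    · right; rfl
  obtain ⟨M, hM, hHM, hrM, htop, hLM, hcov⟩ := block f.range ((facetSub σ).map f) (L.map f) r s
    hKL hLH hsH hsL hHL hr hs hbr hc hrH hgen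
  have hfinH : Finite f.range := Finite.of_surjective f.rangeRestrict f.rangeRestrict_surjective
  obtain ⟨hidx, hrel, hfΓ, hcard⟩ := block_index f.range ((facetSub σ).map f) (L.map f) r
    hKL hLH hr hc hfinH M hM hHM hrM hLM hcov
  have i1 : (L.map f).relIndex f.range = L.index := by
    rw [MonoidHom.range_eq_map, Subgroup.relIndex_map_map_of_injective L ⊤ hfi,
      Subgroup.relIndex_top_right]
  have i2 : ((facetSub σ).map f).relIndex (L.map f) = (facetSub σ).relIndex L :=
    Subgroup.relIndex_map_map_of_injective _ _ hfi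
  have i3 : Nat.card f.range = Nat.card G :=
    (Nat.card_congr (MonoidHom.ofInjective hfi).toEquiv).symm
  rw [i1] at hidx
  rw [i1, i2, i3] at hcard
  have hrinv : r⁻¹ = r := inv_eq_of_mul_eq_one_left hr
  have hofn : ∀ i, i ≤ n → ((Fin.ofNat (n + 1) i : Fin (n + 1)) : ℕ) = i := by
    intro i hi
    simp only [Fin.val_ofNat]
    exact Nat.mod_eq_of_lt (by omega)
  have hlst' : (Fin.ofNat (n + 1) n : Fin (n + 1)) = Fin.last n := by
    apply Fin.ext; rw [hofn n le_rfl]; rfl
  refine ⟨M, hidx, hfΓ, hcard, ?_, ?_⟩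
  · refine ⟨?_, ?_, ?_, ?_, ?_, ?_⟩
    · intro i _
      rw [← map_mul, hρ.sq, map_one]
    · intro i j hij hj
      rw [← map_mul, ← map_mul, hρ.comm]
      rw [hofn i (by omega), hofn j hj]; exact hij
    · intro i hi
      rw [MulAction.toPermHom_apply, MulAction.toPerm_apply]
      rw [MulAction.Quotient.smul_mk, smul_eq_mul, mul_one, eq_comm, QuotientGroup.eq,
        inv_one, one_mul]
      apply hHM
      refine ⟨σ ⟨i, hi⟩, ?_⟩
      rw [hf]
      congr 1
      apply Fin.ext
      rw [hofn i (by omega)]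
      rfl
    · intro x
      obtain ⟨y, rfl⟩ := QuotientGroup.mk_surjective x
      refine ⟨MulAction.toPermHom Γ (Γ ⧸ M) y, ?_, ?_⟩
      · have hy : y ∈ par ρ Set.univ := by rw [hρ.gen]; trivial
        unfold par at hy
        induction hy using Subgroup.closure_induction with
        | mem z hz =>
          obtain ⟨i, -, rfl⟩ := hz
          refine Subgroup.subset_closure ⟨(i : ℕ), ?_, ?_⟩
          · show (i : ℕ) ≤ n
            have := i.isLt; omega
          · simp
        | one => rw [map_one]; exact one_mem _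
        | mul a b _ _ ha hb => rw [map_mul]; exact mul_mem ha hb
        | inv a _ ha => rw [map_inv]; exact inv_mem ha
      · rw [MulAction.toPermHom_apply, MulAction.toPerm_apply]
        rw [MulAction.Quotient.smul_mk, smul_eq_mul, mul_one]
    · rw [hlst', MulAction.toPermHom_apply, MulAction.toPerm_apply,
        MulAction.Quotient.smul_mk, smul_eq_mul, mul_one, Ne, eq_comm, QuotientGroup.eq,
        inv_one, one_mul]
      exact hrM
    · intro x
      obtain ⟨y, rfl⟩ := QuotientGroup.mk_surjective x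
      rw [hlst']
      simp only [MulAction.toPermHom_apply, MulAction.toPerm_apply]
      intro hx1 hx2
      rw [Ne, eq_comm, QuotientGroup.eq, inv_one, one_mul] at hx1
      rw [MulAction.Quotient.smul_mk, smul_eq_mul, mul_one, Ne, eq_comm, QuotientGroup.eq,
        ← hr_def, hrinv] at hx2
      rw [MulAction.Quotient.smul_mk, smul_eq_mul, QuotientGroup.eq, mul_inv_rev, ← hr_def,
        hrinv]
      exact htop y hx1 hx2
  · intro hKLe f' hf'
    have hff : f' = f := by
      have : Set.EqOn f' f (Subgroup.closure (σ '' Set.univ) : Subgroup G) := by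
        apply MonoidHom.eqOn_closure
        rintro _ ⟨i, -, rfl⟩
        rw [hf, hf']
      ext x
      apply this
      have h1 : par σ Set.univ = ⊤ := hσ.gen
      unfold par at h1
      rw [h1]; trivial
    rw [hff]
    apply le_antisymm
    · intro x hx
      obtain ⟨l, hl, h, hh, rfl⟩ := (hM x).1 hx
      rw [← hKLe] at hl
      have : r * l * r = l := by
        rw [← hc l hl, mul_assoc, hr, mul_one]
      rw [this]
      obtain ⟨l', -, rfl⟩ := hl
      exact mul_mem ⟨l', rfl⟩ hh
    · exact hHM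

theorem main_fin (n : ℕ) (hn : 3 ≤ n) (σ : Fin n → G) (τ : Fin n → W)
    (ρ : Fin (n + 1) → Γ) (hfin : Finite G) (hσ : IsStringC σ) (hP : HasFV σ τ ρ)
    (hlast : sch τ (n - 2) (by omega) = 3) (L : Subgroup G)
    (hL : ∀ g, g ∈ L ↔ (g ∈ facetSub σ ∨ ¬ Share σ 1 g)) :
    Finite Γ ∧ Nat.card Γ ≤ (L.index + 1) * (facetSub σ).relIndex L * Nat.card G := by
  obtain ⟨M, -, h1, h2, -⟩ := setup n hn σ τ ρ hfin hσ hP hlast L hL
  exact ⟨h1, h2⟩

/-- the entries of the symbol in the permutation action -/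
theorem perm_sch {n : ℕ} (σ : Fin n → G) (τ : Fin n → W) (ρ : Fin (n + 1) → Γ)
    (hP : HasFV σ τ ρ) (M : Subgroup Γ) (i : ℕ) (h : i + 1 < n) :
    (MulAction.toPermHom Γ (Γ ⧸ M) (ρ (Fin.ofNat (n + 1) (i + 1))) *
      MulAction.toPermHom Γ (Γ ⧸ M) (ρ (Fin.ofNat (n + 1) (i + 1 + 1)))) ^ (sch τ i h) = 1 := by
  obtain ⟨-, -, ⟨g, -, hg⟩⟩ := hP
  have h1 : (τ ⟨i, Nat.lt_of_succ_lt h⟩ * τ ⟨i + 1, h⟩) ^ (sch τ i h) = 1 :=
    pow_orderOf_eq_one _
  have h2 := congrArg g h1
  rw [map_pow, map_mul, map_one, hg, hg] at h2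
  have e1 : (⟨i, Nat.lt_of_succ_lt h⟩ : Fin n).succ = Fin.ofNat (n + 1) (i + 1) := by
    apply Fin.ext
    simp only [Fin.val_succ, Fin.val_ofNat]
    exact (Nat.mod_eq_of_lt (by omega)).symm
  have e2 : (⟨i + 1, h⟩ : Fin n).succ = Fin.ofNat (n + 1) (i + 1 + 1) := by
    apply Fin.ext
    simp only [Fin.val_succ, Fin.val_ofNat]
    exact (Nat.mod_eq_of_lt (by omega)).symm
  rw [e1, e2] at h2
  rw [← map_mul, ← map_pow, h2, map_one]

/-- counting the points of a chain -/
theorem card_points {Ω : Type} {n : ℕ} {s : ℕ → Equiv.Perm Ω} {b0 : Ω} (j : ℕ) (b : ℕ → Ω)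
    (hb : Reach n s b0 j b) (m : ℕ) (hm : m ≤ n - j + 1)
    (hall : ∀ x : Ω, ∃ k, k ≤ m ∧ x = b k) : Nat.card Ω = m + 1 := by
  have e : Fin (m + 1) ≃ Ω := Equiv.ofBijective (fun k : Fin (m + 1) => b k) (by
    constructor
    · intro k l hkl
      apply Fin.ext
      have hk := k.isLt
      have hl := l.isLt
      exact hb.inj _ _ (by omega) (by omega) hkl
    · intro x
      obtain ⟨k, hk, rfl⟩ := hall x
      exact ⟨⟨k, by omega⟩, rfl⟩)
  rw [← Nat.card_congr e, Nat.card_eq_fintype_card, Fintype.card_fin]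

/-- the shape of the symbol of the vertex-figures -/
theorem main_shape (n : ℕ) (hn : 3 ≤ n) (σ : Fin n → G) (τ : Fin n → W)
    (ρ : Fin (n + 1) → Γ) (hfin : Finite G) (hσ : IsStringC σ) (hP : HasFV σ τ ρ)
    (hlast : sch τ (n - 2) (by omega) = 3)
    (hsch : ∀ (i : ℕ) (h : i + 1 < n), sch τ i h = 3 ∨ ¬ 3 ∣ sch τ i h) (L : Subgroup G)
    (hL : ∀ g, g ∈ L ↔ (g ∈ facetSub σ ∨ ¬ Share σ 1 g)) :
    ((∀ (i : ℕ) (h : i + 1 < n), sch τ i h = 3) ∧ (L.index = n ∨ L.index = n + 1)) ∨
      ∃ (i : ℕ) (h : i + 1 < n), Even (sch τ i h) ∧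
        (∀ (j : ℕ) (hj : j + 1 < n), i < j → sch τ j hj = 3) ∧ L.index + i + 1 = n := by
  obtain ⟨M, hidx, -, -, hcd, -⟩ := setup n hn σ τ ρ hfin hσ hP hlast L hL
  have hMi : M.index = Nat.card (Γ ⧸ M) := rfl
  have hps := fun i h => perm_sch σ τ ρ hP M i h
  set s : ℕ → Equiv.Perm (Γ ⧸ M) :=
    fun i => MulAction.toPermHom Γ (Γ ⧸ M) (ρ (Fin.ofNat (n + 1) i)) with hs
  by_cases hall : ∀ (i : ℕ) (h : i + 1 < n), sch τ i h = 3
  · left
    refine ⟨hall, ?_⟩
    have h3 : ∀ i, 1 ≤ i → i < n → (s i * s (i + 1)) ^ 3 = 1 := by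
      intro i hi hin
      have := hps (i - 1) (by omega)
      rw [hall (i - 1) (by omega), show i - 1 + 1 = i by omega] at this
      exact this
    obtain ⟨b, hb⟩ := chain_reach hcd 1 (by omega) h3
    rcases chain_full hcd (by omega) b hb with ⟨h1, -⟩ | ⟨c, hc, -, -, -, h2⟩
    · left
      have := card_points 1 b hb n (by omega) h1
      omega
    · right
      have e : Option (Fin (n + 1)) ≃ (Γ ⧸ M) := Equiv.ofBijective
        (fun k => match k with
          | none => c
          | some k => b (k : ℕ)) (by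
          constructor
          · rintro (_ | k) (_ | l) hkl
            · rfl
            · exact absurd hkl (hc _ (by have := l.isLt; omega))
            · exact absurd hkl.symm (hc _ (by have := k.isLt; omega))
            · have hk := k.isLt
              have hl := l.isLt
              have := hb.inj (k : ℕ) (l : ℕ) (by omega) (by omega) hkl
              rw [Fin.ext this]
          · intro x
            rcases h2 x with rfl | ⟨k, hk, rfl⟩
            · exact ⟨none, rfl⟩
            · exact ⟨some ⟨k, by omega⟩, rfl⟩)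
      have : Nat.card (Γ ⧸ M) = n + 2 := by
        rw [← Nat.card_congr e, Nat.card_eq_fintype_card, Fintype.card_option,
          Fintype.card_fin]
      omega
  · right
    simp only [not_forall] at hall
    -- the largest index with an entry different from 3
    classical
    have hne : ((Finset.range n).filter (fun i => ∃ h : i + 1 < n, sch τ i h ≠ 3)).Nonempty := by
      obtain ⟨i, h, hi⟩ := hall
      exact ⟨i, by simp only [Finset.mem_filter, Finset.mem_range]; exact ⟨by omega, h, hi⟩⟩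
    obtain ⟨i, himem, himax⟩ := Finset.exists_max_image _ id hne
    simp only [Finset.mem_filter, Finset.mem_range] at himem
    obtain ⟨hin, hi1, hi3⟩ := himem
    have hgt : ∀ (j : ℕ) (hj : j + 1 < n), i < j → sch τ j hj = 3 := by
      intro j hj hij
      by_contra hne3
      have := himax j (by
        simp only [Finset.mem_filter, Finset.mem_range]; exact ⟨by omega, hj, hne3⟩)
      simp only [id] at this
      omega
    have hi2 : i + 2 < n := by
      by_contra hlt
      have : i = n - 2 := by omega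
      subst this
      exact hi3 hlast
    have h3 : ∀ k, i + 2 ≤ k → k < n → (s k * s (k + 1)) ^ 3 = 1 := by
      intro k hk hkn
      have := hps (k - 1) (by omega)
      rw [hgt (k - 1) (by omega) (by omega), show k - 1 + 1 = k by omega] at this
      exact this
    obtain ⟨b, hb⟩ := chain_reach hcd (i + 2) (by omega) h3
    have hnd : ¬ 3 ∣ sch τ i hi1 := (hsch i hi1).resolve_left hi3
    obtain ⟨hpts, hs1⟩ := chain_end hcd (i + 1) (by omega) b hb _ hnd (hps i hi1)
    refine ⟨i, hi1, ?_, hgt, ?_⟩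
    · by_contra hodd
      rw [Nat.not_even_iff_odd] at hodd
      have h4 := hps i hi1
      have h5 : s (i + 2) = 1 := by
        have h6 : (s (i + 1) * s (i + 2)) ^ (sch τ i hi1) = 1 := h4
        rw [hs1, one_mul] at h6
        obtain ⟨k, hk⟩ := hodd
        rw [hk, pow_succ, pow_mul, pow_two, hcd.sq (i + 2) (by omega), one_pow, one_mul] at h6
        exact h6
      have h7 := hb.mv (i + 2) le_rfl (by omega)
      rw [h5, Equiv.Perm.one_apply] at h7
      have := hb.inj _ _ (by omega) (by omega) h7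
      omega
    · have := card_points (i + 2) b hb (n - (i + 1)) (by omega) hpts
      omega

end Pool.Agent.Helper23.UP
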