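import Pool.Agent.Helper23.UP.Young

/-! # UP-6: the models -/

namespace Pool.Agent.Helper23.UP

private theorem z2_sq : z2 * z2 = 1 := by decide

private theorem z2_ne : z2 ≠ 1 := by decide

private theorem c2_cases (e : C2) : e = 1 ∨ e = z2 := by
  revert e
  decide

private theorem c2_inv (e : C2) : e⁻¹ = e := by
  revert e
  decide

private theorem c2_mul (e f : C2) : e * f = z2 ↔ ¬ (e = z2 ↔ f = z2) := by
  revert e f
  decide

private theorem dig_zero (k : ℕ) : dig (k + 1) 0 = (z2, 1) := by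
  simp [dig]

private theorem dig_succ (k : ℕ) (j : Fin k) : dig (k + 1) j.succ = (1, smp k j) := by
  unfold dig smp
  have h : ¬ ((j.succ : Fin (k + 1)) : ℕ) = 0 := by simp
  rw [dif_neg h]
  congr 2

private theorem mem_par_dig (k : ℕ) (I : Set (Fin (k + 1))) (x : C2 × Equiv.Perm (Fin (k + 1))) :
    x ∈ par (dig (k + 1)) I ↔ (x.1 = 1 ∨ 0 ∈ I) ∧ x.2 ∈ par (smp k) (Fin.succ ⁻¹' I) := by
  constructor
  · intro hx
    unfold par at hx
    induction hx using Subgroup.closure_induction with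
    | mem x hx =>
      obtain ⟨i, hi, rfl⟩ := hx
      rcases Fin.eq_zero_or_eq_succ i with rfl | ⟨j, rfl⟩
      · rw [dig_zero]
        exact ⟨Or.inr hi, Subgroup.one_mem _⟩
      · rw [dig_succ]
        exact ⟨Or.inl rfl, Subgroup.subset_closure ⟨j, hi, rfl⟩⟩
    | one => exact ⟨Or.inl rfl, Subgroup.one_mem _⟩
    | mul x y _ _ hx hy =>
      refine ⟨?_, Subgroup.mul_mem _ hx.2 hy.2⟩
      rcases hx.1 with h1 | h1
      · rcases hy.1 with h2 | h2
        · left
          rw [Prod.fst_mul, h1, h2, mul_one]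
        · exact Or.inr h2
      · exact Or.inr h1
    | inv x _ hx =>
      refine ⟨?_, Subgroup.inv_mem _ hx.2⟩
      rcases hx.1 with h1 | h1
      · left
        rw [Prod.fst_inv, h1, inv_one]
      · exact Or.inr h1
  · rintro ⟨h1, h2⟩
    have e : x = (x.1, 1) * (1, x.2) := by
      ext1 <;> simp
    rw [e]
    refine Subgroup.mul_mem _ ?_ ?_
    · rcases c2_cases x.1 with h3 | h3
      · rw [h3]
        exact Subgroup.one_mem _
      · rcases h1 with h4 | h4
        · rw [h4] at h3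
          exact absurd h3.symm z2_ne
        · rw [h3, ← dig_zero]
          exact Subgroup.subset_closure ⟨0, h4, rfl⟩
    · have h3 : (par (smp k) (Fin.succ ⁻¹' I)) ≤
          (par (dig (k + 1)) I).comap (MonoidHom.inr C2 (Equiv.Perm (Fin (k + 1)))) := by
        unfold par
        rw [Subgroup.closure_le]
        rintro _ ⟨j, hj, rfl⟩
        rw [SetLike.mem_coe, Subgroup.mem_comap, MonoidHom.inr_apply, ← dig_succ]
        exact Subgroup.subset_closure ⟨j.succ, hj, rfl⟩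
      exact h3 h2

theorem dig_str (m : ℕ) (hm : 1 ≤ m) : IsStringC (dig m) := by
  obtain ⟨k, rfl⟩ : ∃ k, m = k + 1 := ⟨m - 1, by omega⟩
  have hs := smp_str k
  constructor
  · intro i
    rcases Fin.eq_zero_or_eq_succ i with rfl | ⟨j, rfl⟩
    · rw [dig_zero, Prod.mk_mul_mk, z2_sq, mul_one]
      rfl
    · rw [dig_succ, Prod.mk_mul_mk, hs.sq, mul_one]
      rfl
  · intro i h
    rcases Fin.eq_zero_or_eq_succ i with rfl | ⟨j, rfl⟩
    · rw [dig_zero] at h
      exact z2_ne (congrArg Prod.fst h)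
    · rw [dig_succ] at h
      exact hs.ne j (congrArg Prod.snd h)
  · intro i j hij
    rcases Fin.eq_zero_or_eq_succ j with rfl | ⟨j, rfl⟩
    · simp at hij
    · rcases Fin.eq_zero_or_eq_succ i with rfl | ⟨i, rfl⟩
      · rw [dig_zero, dig_succ, Prod.mk_mul_mk, Prod.mk_mul_mk, one_mul, mul_one, one_mul, mul_one]
      · rw [dig_succ, dig_succ, Prod.mk_mul_mk, Prod.mk_mul_mk,
          hs.comm i j (by simp only [Fin.val_succ] at hij; omega)]
  · rw [eq_top_iff]
    intro x _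
    rw [mem_par_dig]
    refine ⟨Or.inr trivial, ?_⟩
    have : (Fin.succ ⁻¹' (Set.univ : Set (Fin (k + 1)))) = Set.univ := rfl
    rw [this, hs.gen]
    trivial
  · intro I J
    ext x
    rw [Subgroup.mem_inf, mem_par_dig, mem_par_dig, mem_par_dig, Set.preimage_inter, ← hs.inter,
      Subgroup.mem_inf, Set.mem_inter_iff]
    tauto

private theorem dbl_fst (m : ℕ) (i : Fin m) : (dbl m i).1 = if (i : ℕ) = 0 then z2 else 1 := rfl

private theorem dbl_snd (m : ℕ) (i : Fin m) : (dbl m i).2 = smp m i := rfl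

private theorem par_dbl_snd (m : ℕ) (I : Set (Fin m)) (x : C2 × Equiv.Perm (Fin (m + 1)))
    (hx : x ∈ par (dbl m) I) : x.2 ∈ par (smp m) I := by
  have h3 : (par (dbl m) I) ≤
      (par (smp m) I).comap (MonoidHom.snd C2 (Equiv.Perm (Fin (m + 1)))) := by
    unfold par
    rw [Subgroup.closure_le]
    rintro _ ⟨j, hj, rfl⟩
    exact Subgroup.subset_closure ⟨j, hj, rfl⟩
  exact h3 hx

private theorem exists_par_dbl (m : ℕ) (I : Set (Fin m)) (g : Equiv.Perm (Fin (m + 1)))
    (hg : g ∈ par (smp m) I) : ∃ e : C2, (e, g) ∈ par (dbl m) I := by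
  have h3 : (par (smp m) I) ≤
      (par (dbl m) I).map (MonoidHom.snd C2 (Equiv.Perm (Fin (m + 1)))) := by
    unfold par
    rw [Subgroup.closure_le]
    rintro _ ⟨j, hj, rfl⟩
    exact ⟨dbl m j, Subgroup.subset_closure ⟨j, hj, rfl⟩, rfl⟩
  obtain ⟨⟨e, g'⟩, h1, rfl⟩ := h3 hg
  exact ⟨e, h1⟩

/-- `0` is fixed, or `{0, 1}` is invariant -/
private theorem inv_cases (k : ℕ) (I : Set (Fin (k + 2))) (hI : ¬ (0 ∈ I ∧ 1 ∈ I))
    (g : Equiv.Perm (Fin (k + 3))) (hg : g ∈ par (smp (k + 2)) I) :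
    g 0 = 0 ∨ (g 0 = 1 ∧ g 1 = 0) := by
  rw [mem_par_smp] at hg
  by_cases h0 : 0 ∈ I
  · have h1 : (1 : Fin (k + 2)) ∉ I := fun h => hI ⟨h0, h⟩
    have h2 := hg 1 h1 0 (by simp)
    have h3 := hg 1 h1 1 (by simp)
    have h4 : ((1 : Fin (k + 2)) : ℕ) = 1 := rfl
    rw [h4] at h2 h3
    have h5 : g 0 ≠ g 1 := fun h => by
      have := g.injective h
      exact absurd (congrArg Fin.val this) (by simp)
    by_cases h6 : g 0 = 0
    · exact Or.inl h6
    · right
      have h7 : (g 0 : ℕ) = 1 := by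
        have : (g 0 : ℕ) ≠ 0 := fun h => h6 (Fin.ext h)
        omega
      have h8 : (g 1 : ℕ) ≠ 1 := fun h => h5 (Fin.ext (h7.trans h.symm))
      refine ⟨Fin.ext h7, Fin.ext ?_⟩
      change (g 1 : ℕ) = 0
      omega
  · have h2 := hg 0 h0 0 (by simp)
    left
    apply Fin.ext
    change (g 0 : ℕ) = 0
    have : ((0 : Fin (k + 2)) : ℕ) = 0 := rfl
    omega

private theorem inv_zero {k : ℕ} {g : Equiv.Perm (Fin (k + 3))}
    (h : g 0 = 0 ∨ (g 0 = 1 ∧ g 1 = 0)) (g' : Equiv.Perm (Fin (k + 3)))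
    (h' : g' 0 = 0 ∨ (g' 0 = 1 ∧ g' 1 = 0)) :
    g (g' 0) ≠ 0 ↔ ¬ (g 0 ≠ 0 ↔ g' 0 ≠ 0) := by
  have h01 : (1 : Fin (k + 3)) ≠ 0 := fun h => absurd (congrArg Fin.val h) (by simp)
  rcases h with h | ⟨h1, h2⟩ <;> rcases h' with h' | ⟨h1', h2'⟩
  · rw [h', h]; simp
  · rw [h1', h]
    have h3 : g 1 ≠ 0 := fun h3 => h01 (g.injective (h3.trans h.symm))
    simp [h3, h01]
  · rw [h', h1]; simp [h01]
  · rw [h1', h1, h2]; simp [h01]

private theorem par_dbl_E (k : ℕ) (I : Set (Fin (k + 2))) (hI : ¬ (0 ∈ I ∧ 1 ∈ I))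
    (x : C2 × Equiv.Perm (Fin (k + 3))) (hx : x ∈ par (dbl (k + 2)) I) :
    x.1 = z2 ↔ x.2 0 ≠ 0 := by
  have h01 : (1 : Fin (k + 3)) ≠ 0 := fun h => absurd (congrArg Fin.val h) (by simp)
  unfold par at hx
  induction hx using Subgroup.closure_induction with
  | mem x hx =>
    obtain ⟨i, hi, rfl⟩ := hx
    rw [dbl_fst, dbl_snd]
    by_cases h : i = 0
    · subst h
      have h1 : smp (k + 2) 0 0 = 1 := by
        unfold smp
        exact Equiv.swap_apply_left _ _
      rw [h1]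
      simp [h01]
    · have h0 : ¬ (i : ℕ) = 0 := fun h' => h (Fin.ext h')
      have h1 : smp (k + 2) i 0 = 0 := by
        unfold smp
        refine Equiv.swap_apply_of_ne_of_ne ?_ ?_
        · intro h'
          exact h0 (congrArg Fin.val h').symm
        · intro h'
          exact absurd (congrArg Fin.val h') (by simp)
      rw [h1, if_neg h0]
      simp [z2_ne.symm]
  | one => simp [z2_ne.symm]
  | mul x y hx hy ihx ihy =>
    rw [Prod.fst_mul, Prod.snd_mul, Equiv.Perm.mul_apply, c2_mul]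
    exact (not_congr (iff_congr ihx ihy)).trans
      (inv_zero (inv_cases k I hI x.2 (par_dbl_snd _ I x hx)) y.2
      (inv_cases k I hI y.2 (par_dbl_snd _ I y hy))).symm
  | inv x _ ih =>
    rw [Prod.fst_inv, Prod.snd_inv, c2_inv]
    refine Iff.trans ih ?_
    rw [ne_eq, ne_eq, Equiv.Perm.inv_eq_iff_eq, eq_comm]

private theorem z2_mem (k : ℕ) (I : Set (Fin (k + 2))) (h0 : 0 ∈ I) (h1 : 1 ∈ I) :
    ((z2, 1) : C2 × Equiv.Perm (Fin (k + 3))) ∈ par (dbl (k + 2)) I := by
  have hs := smp_sch (k + 2) 0 (by omega)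
  unfold sch at hs
  have h3 : (smp (k + 2) 0 * smp (k + 2) 1) ^ 3 = 1 := by
    rw [← hs]
    exact pow_orderOf_eq_one _
  have e : ((z2, 1) : C2 × Equiv.Perm (Fin (k + 3))) = (dbl (k + 2) 0 * dbl (k + 2) 1) ^ 3 := by
    refine Prod.ext ?_ ?_
    · change z2 = (z2 * 1) ^ 3
      decide
    · change 1 = (smp (k + 2) 0 * smp (k + 2) 1) ^ 3
      exact h3.symm
  rw [e]
  have m0 : dbl (k + 2) 0 ∈ par (dbl (k + 2)) I := Subgroup.subset_closure ⟨0, h0, rfl⟩
  have m1 : dbl (k + 2) 1 ∈ par (dbl (k + 2)) I := Subgroup.subset_closure ⟨1, h1, rfl⟩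
  exact Subgroup.pow_mem _ (Subgroup.mul_mem _ m0 m1) 3

private theorem mem_par_dbl (k : ℕ) (I : Set (Fin (k + 2))) (x : C2 × Equiv.Perm (Fin (k + 3))) :
    x ∈ par (dbl (k + 2)) I ↔
      x.2 ∈ par (smp (k + 2)) I ∧ ((0 ∈ I ∧ 1 ∈ I) ∨ (x.1 = z2 ↔ x.2 0 ≠ 0)) := by
  constructor
  · intro hx
    refine ⟨par_dbl_snd _ I x hx, ?_⟩
    by_cases hI : 0 ∈ I ∧ 1 ∈ I
    · exact Or.inl hI
    · exact Or.inr (par_dbl_E k I hI x hx)
  · rintro ⟨h1, h2⟩
    obtain ⟨e, he⟩ := exists_par_dbl _ I x.2 h1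
    by_cases hI : 0 ∈ I ∧ 1 ∈ I
    · by_cases h3 : x.1 = e
      · rw [← h3] at he
        exact he
      · have h4 : x = (z2, 1) * (e, x.2) := by
          refine Prod.ext ?_ ?_
          · change x.1 = z2 * e
            rcases c2_cases x.1 with h5 | h5 <;> rcases c2_cases e with h6 | h6
            · exact absurd (h5.trans h6.symm) h3
            · rw [h5, h6, z2_sq]
            · rw [h5, h6, mul_one]
            · exact absurd (h5.trans h6.symm) h3
          · change x.2 = 1 * x.2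
            rw [one_mul]
        rw [h4]
        exact Subgroup.mul_mem _ (z2_mem k I hI.1 hI.2) he
    · have h3 := par_dbl_E k I hI _ he
      rcases h2 with h2 | h2
      · exact absurd h2 hI
      · have h4 : x.1 = e := by
          rcases c2_cases x.1 with h5 | h5 <;> rcases c2_cases e with h6 | h6
          · rw [h5, h6]
          · have : x.1 = z2 := h2.2 (h3.1 h6)
            rw [h5] at this
            exact absurd this.symm z2_ne
          · have : e = z2 := h3.2 (h2.1 h5)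
            rw [h6] at this
            exact absurd this.symm z2_ne
          · rw [h5, h6]
        rw [← h4] at he
        exact he

theorem dbl_str (m : ℕ) (hm : 2 ≤ m) : IsStringC (dbl m) := by
  obtain ⟨k, rfl⟩ : ∃ k, m = k + 2 := ⟨m - 2, by omega⟩
  have hs := smp_str (k + 2)
  constructor
  · intro i
    refine Prod.ext ?_ (hs.sq i)
    change (if (i : ℕ) = 0 then z2 else 1) * (if (i : ℕ) = 0 then z2 else 1) = 1
    split_ifs
    · exact z2_sq
    · exact mul_one _
  · intro i h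
    exact hs.ne i (congrArg Prod.snd h)
  · intro i j hij
    exact Prod.ext (mul_comm _ _) (hs.comm i j hij)
  · rw [eq_top_iff]
    intro x _
    rw [mem_par_dbl]
    refine ⟨?_, Or.inl ⟨trivial, trivial⟩⟩
    rw [hs.gen]
    trivial
  · intro I J
    ext x
    rw [Subgroup.mem_inf, mem_par_dbl, mem_par_dbl, mem_par_dbl, ← hs.inter, Subgroup.mem_inf,
      Set.mem_inter_iff, Set.mem_inter_iff]
    tauto

private theorem via_swap {α β : Type} [DecidableEq α] [DecidableEq β] (ι : α ↪ β) (a b : α) :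
    Equiv.Perm.viaEmbeddingHom ι (Equiv.swap a b) = Equiv.swap (ι a) (ι b) := by
  rw [Equiv.Perm.viaEmbeddingHom_apply]
  ext x
  by_cases hx : x ∈ Set.range ι
  · obtain ⟨y, rfl⟩ := hx
    rw [Equiv.Perm.viaEmbedding_apply]
    by_cases h1 : y = a
    · rw [h1, Equiv.swap_apply_left, Equiv.swap_apply_left]
    · by_cases h2 : y = b
      · rw [h2, Equiv.swap_apply_right, Equiv.swap_apply_right]
      · rw [Equiv.swap_apply_of_ne_of_ne h1 h2, Equiv.swap_apply_of_ne_of_ne
          (fun h => h1 (ι.injective h)) (fun h => h2 (ι.injective h))]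
  · rw [Equiv.Perm.viaEmbedding_apply_of_notMem _ _ _ hx, Equiv.swap_apply_of_ne_of_ne]
    · rintro rfl
      exact hx ⟨a, rfl⟩
    · rintro rfl
      exact hx ⟨b, rfl⟩

private theorem via_castSucc (n : ℕ) (i : Fin n) :
    Equiv.Perm.viaEmbeddingHom (Fin.castSuccEmb (n := n + 1)) (smp n i) =
      smp (n + 1) i.castSucc := by
  unfold smp
  rw [via_swap]
  rfl

private theorem via_succ (n : ℕ) (i : Fin n) :
    Equiv.Perm.viaEmbeddingHom (Fin.succEmb (n + 1)) (smp n i) = smp (n + 1) i.succ := by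
  unfold smp
  rw [via_swap]
  rfl

theorem smp_FV (n : ℕ) : HasFV (smp n) (smp n) (smp (n + 1)) where
  str := smp_str (n + 1)
  fac := ⟨_, Equiv.Perm.viaEmbeddingHom_injective _, via_castSucc n⟩
  ver := ⟨_, Equiv.Perm.viaEmbeddingHom_injective _, via_succ n⟩

theorem dig_FV (n : ℕ) (hn : 1 ≤ n) : HasFV (dig n) (smp n) (dig (n + 1)) where
  str := dig_str (n + 1) (by omega)
  fac := by
    obtain ⟨k, rfl⟩ : ∃ k, n = k + 1 := ⟨n - 1, by omega⟩
    refine ⟨(MonoidHom.id C2).prodMap (Equiv.Perm.viaEmbeddingHom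
      (Fin.castSuccEmb (n := k + 1))), ?_, ?_⟩
    · rintro ⟨e, x⟩ ⟨f, y⟩ h
      have h1 := congrArg Prod.fst h
      have h2 := Equiv.Perm.viaEmbeddingHom_injective _ (congrArg Prod.snd h)
      exact Prod.ext h1 h2
    · intro i
      rcases Fin.eq_zero_or_eq_succ i with rfl | ⟨j, rfl⟩
      · rw [dig_zero]
        have : (0 : Fin (k + 1)).castSucc = 0 := rfl
        rw [this, dig_zero]
        exact Prod.ext rfl (map_one (Equiv.Perm.viaEmbeddingHom (Fin.castSuccEmb (n := k + 1))))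
      · rw [dig_succ, ← Fin.succ_castSucc, dig_succ]
        exact Prod.ext rfl (via_castSucc k j)
  ver := by
    refine ⟨MonoidHom.inr C2 (Equiv.Perm (Fin (n + 1))), ?_, ?_⟩
    · intro x y h
      exact congrArg Prod.snd h
    · intro i
      rw [dig_succ]
      rfl

theorem dbl_FV (n : ℕ) (hn : 2 ≤ n) : HasFV (dbl n) (smp n) (dbl (n + 1)) where
  str := dbl_str (n + 1) (by omega)
  fac := by
    refine ⟨(MonoidHom.id C2).prodMap (Equiv.Perm.viaEmbeddingHom
      (Fin.castSuccEmb (n := n + 1))), ?_, ?_⟩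
    · rintro ⟨e, x⟩ ⟨f, y⟩ h
      have h1 := congrArg Prod.fst h
      have h2 := Equiv.Perm.viaEmbeddingHom_injective _ (congrArg Prod.snd h)
      exact Prod.ext h1 h2
    · intro i
      exact Prod.ext rfl (via_castSucc n i)
  ver := by
    refine ⟨(MonoidHom.inr C2 (Equiv.Perm (Fin (n + 2)))).comp
      (Equiv.Perm.viaEmbeddingHom (Fin.succEmb (n + 1))), ?_, ?_⟩
    · intro x y h
      exact Equiv.Perm.viaEmbeddingHom_injective _ (congrArg Prod.snd h)
    · intro i
      refine Prod.ext ?_ (via_succ n i)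
      change 1 = if ((i.succ : Fin (n + 1)) : ℕ) = 0 then z2 else 1
      rw [if_neg (by simp)]

theorem HasFV_congr {G G' W W' Γ : Type} [Group G] [Group G'] [Group W] [Group W']
    [Group Γ] {n : ℕ} (σ : Fin n → G) (σ' : Fin n → G') (τ : Fin n → W) (τ' : Fin n → W')
    (ρ : Fin (n + 1) → Γ) (h1 : StrIso σ σ') (h2 : StrIso τ τ') (h : HasFV σ' τ' ρ) :
    HasFV σ τ ρ := by
  obtain ⟨e, he⟩ := h1
  obtain ⟨e', he'⟩ := h2
  obtain ⟨f, hf, hf'⟩ := h.fac
  obtain ⟨g, hg, hg'⟩ := h.ver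
  refine ⟨h.str, ⟨f.comp e.toMonoidHom, hf.comp e.injective, fun i => ?_⟩,
    ⟨g.comp e'.toMonoidHom, hg.comp e'.injective, fun i => ?_⟩⟩
  · change f (e (σ i)) = _
    rw [he, hf']
  · change g (e' (τ i)) = _
    rw [he', hg']

end Pool.Agent.Helper23.UP
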