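import Pool.Agent.Helper23.UP.Defs

/-! # UP-4: the presentation of the symmetric group -/

namespace Pool.Agent.Helper23.UP

/-- the partial products `ρ (j-1) ⋯ ρ 0` -/
def eProd {Γ : Type} [Group Γ] (ρ : ℕ → Γ) : ℕ → Γ
  | 0 => 1
  | (j + 1) => ρ j * eProd ρ j

theorem card_typeA_aux {Γ : Type} [Group Γ] : ∀ (m : ℕ) (ρ : ℕ → Γ)
    (_ : ∀ i < m, ρ i * ρ i = 1)
    (_ : ∀ i j, j < m → i + 2 ≤ j → ρ i * ρ j = ρ j * ρ i)
    (_ : ∀ i, i + 1 < m → ρ i * ρ (i + 1) * ρ i = ρ (i + 1) * ρ i * ρ (i + 1)),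
    Finite (Subgroup.closure (ρ '' Set.Iio m)) ∧
      Nat.card (Subgroup.closure (ρ '' Set.Iio m)) ≤ (m + 1).factorial := by
  intro m
  induction m with
  | zero =>
    intro ρ _ _ _
    have h : Subgroup.closure (ρ '' Set.Iio 0) = ⊥ := by
      have : Set.Iio (0 : ℕ) = ∅ := by
        ext x
        simp
      rw [this, Set.image_empty, Subgroup.closure_empty]
    rw [h]
    exact ⟨inferInstance, by simp⟩
  | succ m ih =>
    intro ρ hsq hcomm hbr
    obtain ⟨hfin, hcard⟩ := ih (fun i => ρ (i + 1)) (fun i hi => hsq _ (by omega))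
      (fun i j hj hij => hcomm _ _ (by omega) (by omega))
      (fun i hi => hbr _ (by omega))
    set H := Subgroup.closure ((fun i => ρ (i + 1)) '' Set.Iio m) with hH
    have hmemH : ∀ i, 1 ≤ i → i < m + 1 → ρ i ∈ H := by
      intro i h1 h2
      apply Subgroup.subset_closure
      refine ⟨i - 1, ?_, ?_⟩
      · show i - 1 < m
        omega
      · show ρ (i - 1 + 1) = ρ i
        rw [Nat.sub_add_cancel h1]
    -- commutation with the partial products
    have hc1 : ∀ i, i < m + 1 → ∀ j, j + 1 ≤ i → ρ i * eProd ρ j = eProd ρ j * ρ i := by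
      intro i hi j
      induction j with
      | zero => intro _; simp [eProd]
      | succ j ihj =>
        intro hj
        show ρ i * (ρ j * eProd ρ j) = ρ j * eProd ρ j * ρ i
        rw [← mul_assoc, ← hcomm j i hi (by omega), mul_assoc, ihj (by omega), mul_assoc]
    have hc2 : ∀ i j, i + 2 ≤ j → j ≤ m + 1 → ρ i * eProd ρ j = eProd ρ j * ρ (i + 1) := by
      intro i j hij
      induction j, hij using Nat.le_induction with
      | base =>
        intro hj
        show ρ i * (ρ (i + 1) * (ρ i * eProd ρ i)) =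
          ρ (i + 1) * (ρ i * eProd ρ i) * ρ (i + 1)
        have h1 := hbr i (by omega)
        have h2 := hc1 (i + 1) (by omega) i le_rfl
        calc ρ i * (ρ (i + 1) * (ρ i * eProd ρ i))
            = (ρ i * ρ (i + 1) * ρ i) * eProd ρ i := by simp only [mul_assoc]
          _ = ρ (i + 1) * ρ i * (ρ (i + 1) * eProd ρ i) := by rw [h1]; simp only [mul_assoc]
          _ = ρ (i + 1) * (ρ i * eProd ρ i) * ρ (i + 1) := by rw [h2]; simp only [mul_assoc]
      | succ j hj ihj =>
        intro hj'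
        show ρ i * (ρ j * eProd ρ j) = ρ j * eProd ρ j * ρ (i + 1)
        rw [← mul_assoc, hcomm i j (by omega) (by omega), mul_assoc, ihj (by omega), mul_assoc]
    -- the union of the cosets
    have hstep : ∀ i, i < m + 1 → ∀ y, (∃ j ≤ m + 1, ∃ h ∈ H, y = eProd ρ j * h) →
        ∃ j ≤ m + 1, ∃ h ∈ H, ρ i * y = eProd ρ j * h := by
      rintro i hi y ⟨j, hj, h, hh, rfl⟩
      rcases lt_trichotomy i j with hij | hij | hij
      · rcases Nat.lt_or_ge (i + 1) j with h1 | h1
        · refine ⟨j, hj, ρ (i + 1) * h, H.mul_mem (hmemH _ (by omega) (by omega)) hh, ?_⟩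
          rw [← mul_assoc, hc2 i j h1 hj, mul_assoc]
        · have h2 : j = i + 1 := by omega
          subst h2
          refine ⟨i, by omega, h, hh, ?_⟩
          show ρ i * (ρ i * eProd ρ i * h) = eProd ρ i * h
          rw [← mul_assoc, ← mul_assoc, hsq i hi, one_mul]
      · subst hij
        exact ⟨i + 1, by omega, h, hh, by rw [← mul_assoc]; rfl⟩
      · refine ⟨j, hj, ρ i * h, H.mul_mem (hmemH _ (by omega) hi) hh, ?_⟩
        rw [← mul_assoc, hc1 i hi j hij, mul_assoc]
    have hcov : ∀ g ∈ Subgroup.closure (ρ '' Set.Iio (m + 1)),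
        ∃ j ≤ m + 1, ∃ h ∈ H, g = eProd ρ j * h := by
      intro g hg
      refine Subgroup.closure_induction_left
        (p := fun g _ => ∃ j ≤ m + 1, ∃ h ∈ H, g = eProd ρ j * h) ?_ ?_ ?_ hg
      · exact ⟨0, by omega, 1, H.one_mem, by simp [eProd]⟩
      · rintro x ⟨i, hi, rfl⟩ y _ hy
        exact hstep i hi y hy
      · rintro x ⟨i, hi, rfl⟩ y _ hy
        rw [inv_eq_of_mul_eq_one_left (hsq i hi)]
        exact hstep i hi y hy
    let F : Fin (m + 2) × H → Γ := fun p => eProd ρ p.1 * p.2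
    have hFfin : Finite (Set.range F) := Set.finite_range F
    have hinc : ((Subgroup.closure (ρ '' Set.Iio (m + 1)) : Subgroup Γ) : Set Γ) ⊆
        Set.range F := by
      intro g hg
      obtain ⟨j, hj, h, hh, rfl⟩ := hcov g hg
      exact ⟨(⟨j, by omega⟩, ⟨h, hh⟩), rfl⟩
    refine ⟨Set.Finite.subset (Set.finite_range F) hinc, ?_⟩
    calc Nat.card (Subgroup.closure (ρ '' Set.Iio (m + 1)))
        ≤ Nat.card (Set.range F) := Nat.card_mono (Set.finite_range F) hinc
      _ ≤ Nat.card (Fin (m + 2) × H) := Finite.card_range_le F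
      _ = (m + 2) * Nat.card H := by rw [Nat.card_prod, Nat.card_fin]
      _ ≤ (m + 2) * (m + 1).factorial := by gcongr
      _ = (m + 1 + 1).factorial := by rw [Nat.factorial_succ (m + 1)]

/-- a group generated by involutions with the relations of type `A_m` has at most
`(m+1)!` elements -/
theorem card_typeA {Γ : Type} [Group Γ] (m : ℕ) (ρ : Fin m → Γ) (hsq : ∀ i, ρ i * ρ i = 1)
    (hcomm : ∀ i j : Fin m, (i : ℕ) + 2 ≤ j → ρ i * ρ j = ρ j * ρ i)
    (hbr : ∀ (i : ℕ) (h : i + 1 < m),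
      (ρ ⟨i, Nat.lt_of_succ_lt h⟩ * ρ ⟨i + 1, h⟩) ^ 3 = 1)
    (hgen : par ρ Set.univ = ⊤) : Finite Γ ∧ Nat.card Γ ≤ (m + 1).factorial := by
  classical
  let ρ' : ℕ → Γ := fun i => if h : i < m then ρ ⟨i, h⟩ else 1
  have hρ' : ∀ i (h : i < m), ρ' i = ρ ⟨i, h⟩ := fun i h => dif_pos h
  obtain ⟨h1, h2⟩ := card_typeA_aux m ρ' (fun i hi => by rw [hρ' i hi]; exact hsq _)
    (fun i j hj hij => by
      rw [hρ' i (by omega), hρ' j hj]
      exact hcomm _ _ hij)
    (fun i hi => by
      rw [hρ' i (by omega), hρ' (i + 1) hi]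
      have h3 := hbr i hi
      set a := ρ ⟨i, Nat.lt_of_succ_lt hi⟩ with ha
      set b := ρ ⟨i + 1, hi⟩ with hb
      have haa : a⁻¹ = a := inv_eq_of_mul_eq_one_left (hsq _)
      have hbb : b⁻¹ = b := inv_eq_of_mul_eq_one_left (hsq _)
      have h4 : (a * b * a) * (b * a * b) = 1 := by
        rw [← h3, pow_succ, pow_two]
        simp only [mul_assoc]
      have h5 := eq_inv_of_mul_eq_one_left h4
      rw [h5]
      simp only [mul_inv_rev, haa, hbb, mul_assoc])
  have h3 : Subgroup.closure (ρ' '' Set.Iio m) = ⊤ := by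
    rw [← hgen, par]
    congr 1
    ext g
    constructor
    · rintro ⟨i, hi, rfl⟩
      exact ⟨⟨i, hi⟩, trivial, (hρ' i hi).symm⟩
    · rintro ⟨i, _, rfl⟩
      exact ⟨i, i.2, hρ' i i.2⟩
  rw [h3] at h1 h2
  have e : (⊤ : Subgroup Γ) ≃ Γ := Subgroup.topEquiv.toEquiv
  refine ⟨Finite.of_equiv _ e, ?_⟩
  rw [← Nat.card_congr e]
  exact h2

/-- adjacent transpositions generate the symmetric group -/
theorem smp_gen (m : ℕ) : par (smp m) Set.univ = ⊤ := by
  rw [par, Set.image_univ, eq_top_iff]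
  intro g _
  have h : g ∈ Submonoid.closure (Set.range fun i : Fin m =>
      Equiv.swap i.castSucc i.succ) := by
    rw [Equiv.Perm.mclosure_swap_castSucc_succ]
    trivial
  exact (Submonoid.closure_le (S := (Subgroup.closure (Set.range (smp m))).toSubmonoid)).2
    (fun x hx => Subgroup.subset_closure hx) h

/-- a homomorphism onto the symmetric group is an isomorphism -/
theorem typeA_iso {Γ : Type} [Group Γ] (m : ℕ) (ρ : Fin m → Γ)
    (hsq : ∀ i, ρ i * ρ i = 1)
    (hcomm : ∀ i j : Fin m, (i : ℕ) + 2 ≤ j → ρ i * ρ j = ρ j * ρ i)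
    (hbr : ∀ (i : ℕ) (h : i + 1 < m),
      (ρ ⟨i, Nat.lt_of_succ_lt h⟩ * ρ ⟨i + 1, h⟩) ^ 3 = 1)
    (hgen : par ρ Set.univ = ⊤) (π : Γ →* Equiv.Perm (Fin (m + 1)))
    (hπ : ∀ i, π (ρ i) = smp m i) : Function.Bijective π := by
  classical
  obtain ⟨hfin, hcard⟩ := card_typeA m ρ hsq hcomm hbr hgen
  have hsurj : Function.Surjective π := by
    rw [← MonoidHom.range_eq_top, eq_top_iff, ← smp_gen m, par, Subgroup.closure_le]
    rintro x ⟨i, _, rfl⟩
    exact ⟨ρ i, hπ i⟩
  refine (Nat.bijective_iff_surjective_and_card π).2 ⟨hsurj, ?_⟩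
  apply le_antisymm
  · rw [Nat.card_perm, Nat.card_fin]
    exact hcard
  · exact Nat.card_le_card_of_surjective π hsurj

end Pool.Agent.Helper23.UP
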