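import Pool.Agent.Helper23.UP.MainFin
import Pool.Agent.Helper23.UP.TypeA
import Pool.Agent.Helper23.UP.Models

/-! # UP-8: auxiliary lemmas -/

namespace Pool.Agent.Helper23.UP

theorem iso_of_range {A A' B : Type} [Group A] [Group A'] [Group B] (u : A →* B)
    (u' : A' →* B) (hu : Function.Injective u) (hu' : Function.Injective u')
    (h : u.range = u'.range) : ∃ e : A ≃* A', ∀ a, u' (e a) = u a := by
  refine ⟨(MonoidHom.ofInjective hu).trans ((MulEquiv.subgroupCongr h).trans
    (MonoidHom.ofInjective hu').symm), fun a => ?_⟩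
  simp
  rfl

theorem nrange_eq_par {A B : Type} [Group A] [Group B] {n : ℕ} (σ : Fin n → A) (u : A →* B)
    (h : par σ Set.univ = ⊤) : u.range = par (fun i => u (σ i)) Set.univ := by
  rw [← par_map, h, MonoidHom.range_eq_map]

/-- the two elements of `C2` -/
theorem c2_cases : ∀ x : C2, x = 1 ∨ x = z2 := by decide

theorem z2_ne : z2 ≠ (1 : C2) := by decide

/-- the homomorphism from `C2` given by an element with square one -/
def c2hom {Γ : Type} [Group Γ] (z : Γ) (hz : z * z = 1) : C2 →* Γ :=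
  MonoidHom.mk' (fun x => if x = 1 then 1 else z) (by
    intro a b
    rcases c2_cases a with rfl | rfl <;> rcases c2_cases b with rfl | rfl
    · simp
    · simp
    · simp
    · have h1 : z2 * z2 = (1 : C2) := by decide
      rw [h1, if_pos rfl, if_neg z2_ne, hz])

theorem c2hom_z2 {Γ : Type} [Group Γ] (z : Γ) (hz : z * z = 1) : c2hom z hz z2 = z := by
  show (if z2 = (1 : C2) then 1 else z) = z
  rw [if_neg z2_ne]

/-- the direct product with a symmetric group -/
theorem prod_iso {Γ : Type} [Group Γ] (m : ℕ) (κ : Fin m → Γ) (z : Γ) (hz : z * z = 1)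
    (hz1 : z ≠ 1) (hzc : ∀ g, z * g = g * z) (hsq : ∀ i, κ i * κ i = 1)
    (hcomm : ∀ i j : Fin m, (i : ℕ) + 2 ≤ j → κ i * κ j = κ j * κ i)
    (hbr : ∀ (i : ℕ) (h : i + 1 < m),
      (κ ⟨i, Nat.lt_of_succ_lt h⟩ * κ ⟨i + 1, h⟩) ^ 3 = 1)
    (hgen : ∀ S : Subgroup Γ, z ∈ S → (∀ i, κ i ∈ S) → S = ⊤)
    (π : Γ →* Equiv.Perm (Fin (m + 1))) (hπ : ∀ i, π (κ i) = smp m i) (hπz : π z = 1) :
    ∃ e : Γ ≃* C2 × Equiv.Perm (Fin (m + 1)), e z = (z2, 1) ∧ ∀ i, e (κ i) = (1, smp m i) := by
  classical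
  set V : Subgroup Γ := par κ Set.univ with hV
  have hκV : ∀ i, κ i ∈ V := fun i => Subgroup.subset_closure ⟨i, Set.mem_univ _, rfl⟩
  let κ' : Fin m → V := fun i => ⟨κ i, hκV i⟩
  have hgen' : par κ' Set.univ = ⊤ := by
    have h1 : (par κ' Set.univ).map V.subtype = V := by
      rw [par_map]
      rfl
    have h2 : (par κ' Set.univ).map V.subtype = (⊤ : Subgroup V).map V.subtype := by
      rw [h1, ← MonoidHom.range_eq_map, Subgroup.range_subtype]
    exact Subgroup.map_injective V.subtype_injective h2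
  have hb := typeA_iso m κ' (fun i => Subtype.ext (hsq i))
    (fun i j h => Subtype.ext (hcomm i j h)) (fun i h => Subtype.ext (hbr i h)) hgen'
    (π.comp V.subtype) (fun i => hπ i)
  let φ : V ≃* Equiv.Perm (Fin (m + 1)) := MulEquiv.ofBijective (π.comp V.subtype) hb
  have hφ : ∀ i, φ.symm (smp m i) = κ' i := by
    intro i
    rw [MulEquiv.symm_apply_eq]
    exact (hπ i).symm
  have hzV : z ∉ V := by
    intro h
    have h1 : (π.comp V.subtype) ⟨z, h⟩ = (π.comp V.subtype) 1 := by
      rw [map_one]; exact hπz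
    exact hz1 (congrArg Subtype.val (hb.1 h1))
  let ψ : C2 × Equiv.Perm (Fin (m + 1)) →* Γ :=
    MonoidHom.noncommCoprod (c2hom z hz) (V.subtype.comp φ.symm.toMonoidHom) (by
      intro x y
      rcases c2_cases x with rfl | rfl
      · rw [map_one]; exact Commute.one_left _
      · rw [c2hom_z2]; exact hzc _)
  have hψ : ∀ x y, ψ (x, y) = c2hom z hz x * (φ.symm y : Γ) := fun x y => rfl
  have hψz : ψ (z2, 1) = z := by
    rw [hψ, c2hom_z2, map_one]
    simp
  have hψκ : ∀ i, ψ (1, smp m i) = κ i := by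
    intro i
    rw [hψ, map_one, one_mul, hφ i]
  have hinj : Function.Injective ψ := by
    rw [injective_iff_map_eq_one]
    rintro ⟨x, y⟩ h
    rw [hψ] at h
    rcases c2_cases x with rfl | rfl
    · rw [map_one, one_mul] at h
      have h1 : φ.symm y = 1 := Subtype.ext h
      rw [MulEquiv.symm_apply_eq, map_one] at h1
      rw [h1]
      rfl
    · rw [c2hom_z2] at h
      exfalso
      apply hzV
      rw [mul_eq_one_iff_eq_inv] at h
      rw [h]
      exact V.inv_mem (φ.symm y).2
  have hsurj : Function.Surjective ψ := by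
    rw [← MonoidHom.range_eq_top]
    exact hgen _ ⟨_, hψz⟩ (fun i => ⟨_, hψκ i⟩)
  refine ⟨(MulEquiv.ofBijective ψ ⟨hinj, hsurj⟩).symm, ?_, fun i => ?_⟩
  · rw [MulEquiv.symm_apply_eq]
    exact hψz.symm
  · rw [MulEquiv.symm_apply_eq]
    exact (hψκ i).symm

/-- the permutation representation on the points of the chain -/
theorem perm_points {Ω : Type} {m : ℕ} (ε : Fin (m + 1) ≃ Ω) (i : Fin m)
    (p : Equiv.Perm Ω) (h1 : p (ε i.castSucc) = ε i.succ) (h2 : p (ε i.succ) = ε i.castSucc)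
    (h3 : ∀ x, x ≠ ε i.castSucc → x ≠ ε i.succ → p x = x) :
    ε.symm.permCongrHom p = smp m i := by
  ext x
  show ((ε.symm (p (ε x)) : Fin (m + 1)) : ℕ) = (Equiv.swap i.castSucc i.succ x : Fin (m + 1))
  congr 1
  by_cases hx1 : x = i.castSucc
  · rw [hx1, h1, Equiv.symm_apply_apply, Equiv.swap_apply_left]
  · by_cases hx2 : x = i.succ
    · rw [hx2, h2, Equiv.symm_apply_apply, Equiv.swap_apply_right]
    · rw [h3 _ (fun h => hx1 (ε.injective h)) (fun h => hx2 (ε.injective h)),
        Equiv.symm_apply_apply, Equiv.swap_apply_of_ne_of_ne hx1 hx2]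

/-- braid relation, conjugation -/
theorem braid_conj {Γ : Type} [Group Γ] (a b : Γ) (ha : a * a = 1) (hb : b * b = 1)
    (h : (a * b) ^ 3 = 1) : a = (b * a) * b * (b * a)⁻¹ := by
  have ha' : a⁻¹ = a := inv_eq_of_mul_eq_one_left ha
  have hb' : b⁻¹ = b := inv_eq_of_mul_eq_one_left hb
  rw [mul_inv_rev, ha', hb']
  have h1 : a * b * (a * b) * (a * b) = 1 := by rw [← h, pow_three, mul_assoc]
  have h2 : b * a * b * a * b = a := by
    calc b * a * b * a * b = (a * a) * (b * a * b * a * b) := by rw [ha, one_mul]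
      _ = a * (a * b * (a * b) * (a * b)) := by group
      _ = a := by rw [h1, mul_one]
  calc a = b * a * b * a * b := h2.symm
    _ = b * a * b * (a * b) := by group

end Pool.Agent.Helper23.UP
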