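import Pool.Agent.Helper23.UP.MainFin
import Pool.Agent.Helper23.UP.TypeA
import Pool.Agent.Helper23.UP.Models
import Pool.Agent.Helper23.UP.NeighAux

/-! # UP-8: facets in which any two facets are adjacent -/

namespace Pool.Agent.Helper23.UP

variable {G W Γ : Type} [Group G] [Group W] [Group Γ]

/-- the classification of the big polytope -/
theorem neigh_big (n : ℕ) (hn : 3 ≤ n) (σ : Fin n → G) (τ : Fin n → W)
    (ρ : Fin (n + 1) → Γ) (hfin : Finite G) (hσ : IsStringC σ) (hP : HasFV σ τ ρ)
    (hlast : sch τ (n - 2) (by omega) = 3)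
    (hsch : ∀ (i : ℕ) (h : i + 1 < n), sch τ i h = 3 ∨ ¬ 3 ∣ sch τ i h)
    (hτ : ∀ (i : ℕ) (h : i + 1 < n), sch τ i h ≠ 2)
    (hN : ∀ g g', Share σ g g') :
    StrIso ρ (dig (n + 1)) ∨ StrIso ρ (smp (n + 1)) ∨ StrIso ρ (dbl (n + 1)) := by
  classical
  have hC := hP.str
  obtain ⟨f, hf, hf'⟩ := hP.fac
  obtain ⟨gv, hgv, hgv'⟩ := hP.ver
  have hL : ∀ g, g ∈ facetSub σ ↔ (g ∈ facetSub σ ∨ ¬ Share σ 1 g) :=
    fun g => ⟨Or.inl, fun h => h.resolve_right (fun h' => h' (hN 1 g))⟩
  obtain ⟨M, -, hfinΓ, -, hchain, hM⟩ := setup n hn σ τ ρ hfin hσ hP hlast (facetSub σ) hL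
  have hM' : M = f.range := hM rfl f hf'
  -- notation
  have hofNat : ∀ i (h : i < n + 1), Fin.ofNat (n + 1) i = ⟨i, h⟩ := fun i h =>
    Fin.ext (Nat.mod_eq_of_lt h)
  set act : Γ →* Equiv.Perm (Γ ⧸ M) := MulAction.toPermHom Γ (Γ ⧸ M) with hact
  set r : Γ := ρ (Fin.last n) with hr
  have hn1 : n - 1 + 1 = n := by omega
  -- products of consecutive generators
  have hprod : ∀ (i : ℕ) (h : i + 1 < n) (p : ℕ),
      (τ ⟨i, Nat.lt_of_succ_lt h⟩ * τ ⟨i + 1, h⟩) ^ p = 1 →
      (ρ ⟨i + 1, by omega⟩ * ρ ⟨i + 2, by omega⟩) ^ p = 1 := by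
    intro i h p hp
    have h1 := congrArg gv hp
    rw [map_pow, map_mul, hgv', hgv', map_one] at h1
    exact h1
  have hprod3 : ∀ (i : ℕ) (h : i + 1 < n), sch τ i h = 3 →
      (ρ ⟨i + 1, by omega⟩ * ρ ⟨i + 2, by omega⟩) ^ 3 = 1 := by
    intro i h h3
    apply hprod i h
    rw [← h3]
    exact pow_orderOf_eq_one _
  -- the base facet group
  have hrange : f.range = par ρ (Set.range Fin.castSucc) := by
    rw [nrange_eq_par σ f hσ.gen]
    have : (fun i => f (σ i)) = fun i => ρ i.castSucc := funext hf'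
    rw [this, par_castSucc, Set.image_univ]
  have hmem : ∀ i : Fin (n + 1), ρ i ∈ par ρ {i} := fun i =>
    Subgroup.subset_closure ⟨i, rfl, rfl⟩
  have hrM : r ∉ f.range := by
    intro h
    rw [hrange] at h
    have h1 : r ∈ par ρ (Set.range Fin.castSucc) ⊓ par ρ {Fin.last n} := ⟨h, hmem _⟩
    rw [hC.inter] at h1
    have h2 : (Set.range Fin.castSucc ∩ {Fin.last n} : Set (Fin (n + 1))) = ∅ := by
      ext x
      simp only [Set.mem_inter_iff, Set.mem_range, Set.mem_singleton_iff, Set.mem_empty_iff_false,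
        iff_false, not_and]
      rintro ⟨y, rfl⟩ h3
      exact (Fin.castSucc_lt_last y).ne h3
    rw [h2] at h1
    have h3 : par ρ ∅ = ⊥ := by
      unfold par
      rw [Set.image_empty, Subgroup.closure_empty]
    rw [h3, Subgroup.mem_bot] at h1
    exact hC.ne _ h1
  -- r commutes with K
  have hKr : ∀ x ∈ facetSub σ, Commute (f x) r := by
    intro x hx
    have h1 : f x ∈ (facetSub σ).map f := ⟨x, hx, rfl⟩
    unfold facetSub at h1
    rw [par_map] at h1
    have h2 : par (fun i => f (σ i)) {i : Fin n | (i : ℕ) + 1 ≠ n} ≤ Subgroup.centralizer {r} := by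
      unfold par
      rw [Subgroup.closure_le]
      rintro _ ⟨i, hi, rfl⟩
      have hi' : (i : ℕ) + 1 ≠ n := hi
      show f (σ i) ∈ Subgroup.centralizer {r}
      rw [Subgroup.mem_centralizer_singleton_iff, hf']
      exact hC.comm _ _ (by
        have := i.isLt
        show (i : ℕ) + 2 ≤ n
        omega)
    have h3 := h2 h1
    rw [Subgroup.mem_centralizer_singleton_iff] at h3
    exact h3
  have hrr : r * r = 1 := hC.sq _
  -- braid relation of the last two generators
  set s' : Γ := ρ ⟨n - 1, by omega⟩ with hs'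
  have hss : s' * s' = 1 := hC.sq _
  have hbr : s' * r * s' = r * s' * r := by
    have h1 := hprod3 (n - 2) (by omega) hlast
    have h2 : (⟨n - 2 + 1, by omega⟩ : Fin (n + 1)) = ⟨n - 1, by omega⟩ := Fin.ext (by
      show n - 2 + 1 = n - 1
      omega)
    have h3 : (⟨n - 2 + 2, by omega⟩ : Fin (n + 1)) = Fin.last n := Fin.ext (by
      show n - 2 + 2 = n
      omega)
    rw [h2, h3] at h1
    have h4 : s' * r * (s' * r) * (s' * r) = 1 := by rw [← h1, pow_three, mul_assoc]
    have hr' : r⁻¹ = r := inv_eq_of_mul_eq_one_left hrr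
    have hs'' : s'⁻¹ = s' := inv_eq_of_mul_eq_one_left hss
    calc s' * r * s' = (s' * r * (s' * r) * (s' * r)) * (r⁻¹ * s'⁻¹ * r⁻¹) := by group
      _ = r * s' * r := by rw [h4, one_mul, hr', hs'']
  -- the kernel of the action
  have hNM : ∀ x, act x = 1 → x ∈ f.range := by
    intro x hx
    have h1 : act x ((1 : Γ) : Γ ⧸ M) = ((1 : Γ) : Γ ⧸ M) := by rw [hx]; rfl
    have h2 : ((x * 1 : Γ) : Γ ⧸ M) = ((1 : Γ) : Γ ⧸ M) := h1
    rw [mul_one, QuotientGroup.eq] at h2
    rw [← hM']
    simpa using h2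
  have hNr : ∀ x, act x = 1 → Commute x r := by
    intro x hx
    obtain ⟨y, rfl⟩ := hNM x hx
    have h1 : r * f y * r ∈ f.range := by
      apply hNM
      rw [map_mul, map_mul, hx, mul_one, ← map_mul, hrr, map_one]
    have h2 := (share_iff (by omega) σ hσ 1 y).mp (hN 1 y)
    rw [inv_one, one_mul] at h2
    rcases h2 with h2 | ⟨a, ha, b, hb, h2⟩
    · exact hKr y h2
    · exfalso
      apply hrM
      have hfs : f (σ ⟨n - 1, by omega⟩) = s' := hf' _
      have ha' := (hKr a ha).eq
      have hb' := (hKr b hb).eq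
      have h3 : r * f y * r = f a * s' * r * s' * f b := by
        rw [h2, map_mul, map_mul, hfs]
        calc r * (f a * s' * f b) * r = (r * f a) * s' * (f b * r) := by group
          _ = (f a * r) * s' * (r * f b) := by rw [← ha', hb']
          _ = f a * (r * s' * r) * f b := by group
          _ = f a * (s' * r * s') * f b := by rw [hbr]
          _ = _ := by group
      rw [h3] at h1
      have h4 : r = (f a * s')⁻¹ * (f a * s' * r * s' * f b) * (s' * f b)⁻¹ := by group
      rw [h4]
      have h5 : s' ∈ f.range := ⟨_, hfs⟩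
      have h6 : f a ∈ f.range := ⟨a, rfl⟩
      have h7 : f b ∈ f.range := ⟨b, rfl⟩
      exact mul_mem (mul_mem (inv_mem (mul_mem h6 h5)) h1) (inv_mem (mul_mem h5 h7))
  -- a run of threes: the generators centralise the kernel
  have hcen : ∀ d j : ℕ, (hj : j + d = n) → 1 ≤ j →
      (∀ (i : ℕ) (h : i + 1 < n), j ≤ i + 1 → sch τ i h = 3) →
      ∀ x, act x = 1 → Commute x (ρ ⟨j, by omega⟩) := by
    intro d
    induction d with
    | zero =>
      intro j hj h1 _ x hx
      have h2 : (⟨j, by omega⟩ : Fin (n + 1)) = Fin.last n := Fin.ext (by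
        show j = n
        omega)
      rw [h2]
      exact hNr x hx
    | succ d ih =>
      intro j hj h1 h3 x hx
      have ih' := ih (j + 1) (by omega) (by omega) (fun i h hi => h3 i h (by omega))
      obtain ⟨i, rfl⟩ : ∃ i, j = i + 1 := ⟨j - 1, by omega⟩
      have h4 := hprod3 i (by omega) (h3 i (by omega) le_rfl)
      set a : Γ := ρ ⟨i + 1, by omega⟩ with ha
      set b : Γ := ρ ⟨i + 2, by omega⟩ with hb
      have h5 := braid_conj a b (hC.sq _) (hC.sq _) h4
      set c : Γ := b * a with hc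
      have h6 : act (c⁻¹ * x * c) = 1 := by
        rw [map_mul, map_mul, hx, mul_one, ← map_mul, inv_mul_cancel, map_one]
      have h7 : Commute (c⁻¹ * x * c) b := ih' _ h6
      show x * a = a * x
      rw [h5]
      calc x * (c * b * c⁻¹) = c * ((c⁻¹ * x * c) * b) * c⁻¹ := by group
        _ = c * (b * (c⁻¹ * x * c)) * c⁻¹ := by rw [h7.eq]
        _ = c * b * c⁻¹ * x := by group
  -- distinct generators
  have hdist : ∀ i j : Fin (n + 1), i ≠ j → ρ i ≠ ρ j := by
    intro i j hij h
    have h1 : ρ i ∈ par ρ {i} ⊓ par ρ {j} := ⟨hmem i, by rw [h]; exact hmem j⟩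
    rw [hC.inter] at h1
    have h2 : ({i} ∩ {j} : Set (Fin (n + 1))) = ∅ := by
      ext x
      simp only [Set.mem_inter_iff, Set.mem_singleton_iff, Set.mem_empty_iff_false,
        iff_false, not_and]
      rintro rfl h3
      exact hij h3
    rw [h2] at h1
    have h3 : par ρ ∅ = ⊥ := by
      unfold par
      rw [Set.image_empty, Subgroup.closure_empty]
    rw [h3, Subgroup.mem_bot] at h1
    exact hC.ne _ h1
  -- the action of the generators
  set s : ℕ → Equiv.Perm (Γ ⧸ M) := fun i => act (ρ (Fin.ofNat (n + 1) i)) with hsdef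
  have hs : ∀ i (h : i < n + 1), s i = act (ρ ⟨i, h⟩) := by
    intro i h
    show act (ρ (Fin.ofNat (n + 1) i)) = _
    rw [hofNat i h]
  have hs3 : ∀ (i : ℕ) (h : i + 1 < n), sch τ i h = 3 → (s (i + 1) * s (i + 2)) ^ 3 = 1 := by
    intro i h h3
    rw [hs (i + 1) (by omega), hs (i + 2) (by omega), ← map_mul, ← map_pow, hprod3 i h h3, map_one]
  -- all the entries of the vertex-figure are 3
  have hall : ∀ (i : ℕ) (h : i + 1 < n), sch τ i h = 3 := by
    have key : ∀ d i : ℕ, i + d + 2 = n → ∀ (h : i + 1 < n), sch τ i h = 3 := by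
      intro d
      induction d using Nat.strong_induction_on with
      | _ d ih =>
        intro i hid h
        by_contra hne
        have hd : d ≠ 0 := by
          rintro rfl
          apply hne
          have : i = n - 2 := by omega
          subst this
          exact hlast
        have hlater : ∀ (k : ℕ) (hk : k + 1 < n), i < k → sch τ k hk = 3 := by
          intro k hk hik
          exact ih (n - 2 - k) (by omega) k (by omega) hk
        have hp : ¬ 3 ∣ sch τ i h := (hsch i h).resolve_left hne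
        obtain ⟨b, hb⟩ := chain_reach hchain (i + 2) (by omega) (by
          intro k hk1 hk2
          obtain ⟨k', rfl⟩ : ∃ k', k = k' + 1 := ⟨k - 1, by omega⟩
          exact hs3 k' (by omega) (hlater k' (by omega) (by omega)))
        have h1 := (chain_end hchain (i + 1) (by omega) b hb (sch τ i h) hp (by
          show (s (i + 1) * s (i + 2)) ^ _ = 1
          rw [hs (i + 1) (by omega), hs (i + 2) (by omega), ← map_mul, ← map_pow,
            hprod i h (sch τ i h) (pow_orderOf_eq_one _), map_one])).2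
        have h1' : act (ρ ⟨i + 1, by omega⟩) = 1 := by
          rw [← hs (i + 1) (by omega)]; exact h1
        have h2 := hcen (n - (i + 2)) (i + 2) (by omega) (by omega)
          (fun k hk hik => hlater k hk (by omega)) _ h1'
        apply hτ i h
        -- the order is two
        have h3 : (τ ⟨i, Nat.lt_of_succ_lt h⟩ * τ ⟨i + 1, h⟩) ^ 2 = 1 := by
          apply hgv
          rw [map_pow, map_mul, hgv', hgv', map_one, pow_two]
          have h4 : ρ (Fin.succ ⟨i, Nat.lt_of_succ_lt h⟩) * ρ (Fin.succ ⟨i + 1, h⟩) =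
              ρ (Fin.succ ⟨i + 1, h⟩) * ρ (Fin.succ ⟨i, Nat.lt_of_succ_lt h⟩) := h2.eq
          calc ρ (Fin.succ ⟨i, Nat.lt_of_succ_lt h⟩) * ρ (Fin.succ ⟨i + 1, h⟩) *
                (ρ (Fin.succ ⟨i, Nat.lt_of_succ_lt h⟩) * ρ (Fin.succ ⟨i + 1, h⟩))
              = ρ (Fin.succ ⟨i, Nat.lt_of_succ_lt h⟩) * ρ (Fin.succ ⟨i + 1, h⟩) *
                (ρ (Fin.succ ⟨i + 1, h⟩) * ρ (Fin.succ ⟨i, Nat.lt_of_succ_lt h⟩)) := by rw [← h4]
            _ = ρ (Fin.succ ⟨i, Nat.lt_of_succ_lt h⟩) * (ρ (Fin.succ ⟨i + 1, h⟩) *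
                ρ (Fin.succ ⟨i + 1, h⟩)) * ρ (Fin.succ ⟨i, Nat.lt_of_succ_lt h⟩) := by group
            _ = 1 := by rw [hC.sq, mul_one, hC.sq]
        have h5 : τ ⟨i, Nat.lt_of_succ_lt h⟩ * τ ⟨i + 1, h⟩ ≠ 1 := by
          intro h6
          have h7 := congrArg gv h6
          rw [map_mul, hgv', hgv', map_one] at h7
          apply hdist (Fin.succ ⟨i, Nat.lt_of_succ_lt h⟩) (Fin.succ ⟨i + 1, h⟩) (by
            intro h8
            have := congrArg Fin.val h8
            simp at this)
          calc ρ (Fin.succ ⟨i, Nat.lt_of_succ_lt h⟩)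
              = ρ (Fin.succ ⟨i, Nat.lt_of_succ_lt h⟩) * (ρ (Fin.succ ⟨i + 1, h⟩) *
                ρ (Fin.succ ⟨i + 1, h⟩)) := by rw [hC.sq, mul_one]
            _ = (ρ (Fin.succ ⟨i, Nat.lt_of_succ_lt h⟩) * ρ (Fin.succ ⟨i + 1, h⟩)) *
                ρ (Fin.succ ⟨i + 1, h⟩) := by group
            _ = ρ (Fin.succ ⟨i + 1, h⟩) := by rw [h7, one_mul]
        exact orderOf_eq_prime h3 h5
    intro i h
    exact key (n - 2 - i) i (by omega) h
  -- the whole run
  obtain ⟨b, hb⟩ := chain_reach hchain 1 (by omega) (by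
    intro k hk1 hk2
    obtain ⟨k', rfl⟩ : ∃ k', k = k' + 1 := ⟨k - 1, by omega⟩
    exact hs3 k' (by omega) (hall k' (by omega)))
  have hcen' : ∀ i (hi : i < n + 1), 1 ≤ i → ∀ x, act x = 1 → Commute x (ρ ⟨i, hi⟩) := by
    intro i hi h1 x hx
    exact hcen (n - i) i (by omega) h1 (fun k hk _ => hall k hk) x hx
  have hbr' : ∀ (i : ℕ) (h : i + 1 < n + 1), 1 ≤ i →
      (ρ ⟨i, Nat.lt_of_succ_lt h⟩ * ρ ⟨i + 1, h⟩) ^ 3 = 1 := by
    intro i h h1
    obtain ⟨k, rfl⟩ : ∃ k, i = k + 1 := ⟨i - 1, by omega⟩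
    exact hprod3 k (by omega) (hall k (by omega))
  have hcentral : ∀ z, (∀ i, Commute z (ρ i)) → ∀ g, z * g = g * z := by
    intro z hz g
    have h1 : (⊤ : Subgroup Γ) ≤ Subgroup.centralizer {z} := by
      rw [← hC.gen]
      unfold par
      rw [Subgroup.closure_le]
      rintro _ ⟨i, -, rfl⟩
      show ρ i ∈ Subgroup.centralizer {z}
      rw [Subgroup.mem_centralizer_singleton_iff]
      exact (hz i).eq.symm
    have h2 := h1 (Subgroup.mem_top g)
    rw [Subgroup.mem_centralizer_singleton_iff] at h2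
    exact h2.symm
  rcases chain_full hchain (by omega) b hb with ⟨hpts, h0⟩ | ⟨c, hc1, hc2, hc3, hc4, hc5⟩
  · -- first case: the polytope dig
    left
    have h0' : act (ρ 0) = 1 := by
      have := hs 0 (by omega)
      rw [← h0]
      exact this.symm
    let ε0 : Fin (n + 1) → Γ ⧸ M := fun k => b (n - k)
    have hε0 : Function.Bijective ε0 := by
      constructor
      · intro x y hxy
        have := hb.inj (n - x) (n - y) (by omega) (by omega) hxy
        have h1 := x.isLt
        have h2 := y.isLt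
        exact Fin.ext (by omega)
      · intro x
        obtain ⟨k, hk, rfl⟩ := hpts x
        refine ⟨⟨n - k, by omega⟩, ?_⟩
        show b (n - (n - k)) = b k
        congr 1
        omega
    let ε : Fin (n + 1) ≃ Γ ⧸ M := Equiv.ofBijective ε0 hε0
    let π : Γ →* Equiv.Perm (Fin (n + 1)) := (ε.symm.permCongrHom).toMonoidHom.comp act
    have hπ : ∀ i : Fin n, π (ρ i.succ) = smp n i := by
      intro i
      have hi := i.isLt
      have e1 : act (ρ i.succ) = s (i + 1) := (hs (i + 1) (by omega)).symm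
      have e2 : ε i.castSucc = b (n - (i + 1) + 1) := by
        show b (n - i) = b (n - (i + 1) + 1)
        congr 1
        omega
      have e3 : ε i.succ = b (n - (i + 1)) := rfl
      apply perm_points ε i (act (ρ i.succ))
      · rw [e1, e2, e3]
        exact hb.mv' (i + 1) (by omega) (by omega)
      · rw [e1, e2, e3]
        exact hb.mv (i + 1) (by omega) (by omega)
      · intro x hx1 hx2
        rw [e1]
        rw [e2] at hx1
        rw [e3] at hx2
        exact hb.fx (i + 1) x (by omega) (by omega) hx2 hx1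
    have hz : ∀ i, Commute (ρ 0) (ρ i) := by
      intro i
      refine Fin.cases (Commute.refl _) (fun j => ?_) i
      exact hcen' (j + 1) (by omega) (by omega) _ h0'
    obtain ⟨e, he0, he⟩ := prod_iso n (fun i => ρ i.succ) (ρ 0) (hC.sq 0) (hC.ne 0)
      (hcentral _ hz) (fun i => hC.sq _) (fun i j h => hC.comm _ _ (by
        show (i : ℕ) + 1 + 2 ≤ j + 1
        omega)) (fun i h => hbr' (i + 1) (by omega) (by omega)) (by
        intro S hS0 hS
        rw [eq_top_iff, ← hC.gen]
        unfold par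
        rw [Subgroup.closure_le]
        rintro _ ⟨i, -, rfl⟩
        exact Fin.cases hS0 hS i) π hπ (by
        show (ε.symm.permCongrHom) (act (ρ 0)) = 1
        rw [h0', map_one])
    refine ⟨e, fun i => ?_⟩
    refine Fin.cases ?_ (fun j => ?_) i
    · rw [he0]
      rfl
    · rw [he j]
      unfold dig smp
      rw [dif_neg (by simp)]
      congr 1
  · -- second case
    let ε0 : Fin (n + 2) → Γ ⧸ M := fun k => if (k : ℕ) = 0 then c else b (n + 1 - k)
    have hε0 : Function.Bijective ε0 := by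
      constructor
      · intro x y hxy
        have h1 := x.isLt
        have h2 := y.isLt
        show x = y
        have hxy' : (if (x : ℕ) = 0 then c else b (n + 1 - x)) =
          (if (y : ℕ) = 0 then c else b (n + 1 - y)) := hxy
        split_ifs at hxy' with hx hy hy
        · exact Fin.ext (by omega)
        · exact absurd hxy' (hc1 _ (by omega))
        · exact absurd hxy'.symm (hc1 _ (by omega))
        · have := hb.inj (n + 1 - x) (n + 1 - y) (by omega) (by omega) hxy'
          exact Fin.ext (by omega)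
      · intro x
        rcases hc5 x with rfl | ⟨k, hk, rfl⟩
        · exact ⟨0, rfl⟩
        · refine ⟨⟨n + 1 - k, by omega⟩, ?_⟩
          show (if n + 1 - k = 0 then c else b (n + 1 - (n + 1 - k))) = b k
          rw [if_neg (by omega)]
          congr 1
          omega
    let ε : Fin (n + 2) ≃ Γ ⧸ M := Equiv.ofBijective ε0 hε0
    let π : Γ →* Equiv.Perm (Fin (n + 2)) := (ε.symm.permCongrHom).toMonoidHom.comp act
    have hε1 : ∀ k : Fin (n + 2), 1 ≤ (k : ℕ) → ε k = b (n + 1 - k) := by
      intro k hk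
      show (if (k : ℕ) = 0 then c else b (n + 1 - k)) = _
      rw [if_neg (by omega)]
    have hπ : ∀ i : Fin (n + 1), π (ρ i) = smp (n + 1) i := by
      intro i
      have hi := i.isLt
      have e1 : act (ρ i) = s i := (hs i hi).symm
      by_cases hi0 : (i : ℕ) = 0
      · have e2 : ε i.castSucc = c := by
          show (if (i : ℕ) = 0 then c else b (n + 1 - i)) = c
          rw [if_pos hi0]
        have e3 : ε i.succ = b n := by
          rw [hε1 _ (by simp)]
          congr 1
          simp only [Fin.val_succ]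
          omega
        have e4 : s i = s 0 := by rw [hi0]
        apply perm_points ε i (act (ρ i))
        · rw [e1, e2, e3, e4]
          exact hc3
        · rw [e1, e2, e3, e4]
          exact hc2
        · intro x hx1 hx2
          rw [e1, e4]
          rw [e2] at hx1
          rw [e3] at hx2
          exact hc4 x hx2 hx1
      · have e2 : ε i.castSucc = b (n - i + 1) := by
          rw [hε1 _ (by simp only [Fin.val_castSucc]; omega)]
          congr 1
          simp only [Fin.val_castSucc]
          omega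
        have e3 : ε i.succ = b (n - i) := by
          rw [hε1 _ (by simp)]
          congr 1
          simp only [Fin.val_succ]
          omega
        apply perm_points ε i (act (ρ i))
        · rw [e1, e2, e3]
          exact hb.mv' i (by omega) (by omega)
        · rw [e1, e2, e3]
          exact hb.mv i (by omega) (by omega)
        · intro x hx1 hx2
          rw [e1]
          rw [e2] at hx1
          rw [e3] at hx2
          exact hb.fx i x (by omega) (by omega) hx2 hx1
    have hπact : ∀ x, π x = 1 → act x = 1 := by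
      intro x hx
      apply (ε.symm.permCongrHom).injective
      rw [map_one]
      exact hx
    set a0 : Γ := ρ 0 with ha0
    set a1 : Γ := ρ ⟨1, by omega⟩ with ha1
    set z : Γ := (a0 * a1) ^ 3 with hz
    have ha00 : a0 * a0 = 1 := hC.sq _
    have ha11 : a1 * a1 = 1 := hC.sq _
    have ha0i : a0⁻¹ = a0 := inv_eq_of_mul_eq_one_left ha00
    have ha1i : a1⁻¹ = a1 := inv_eq_of_mul_eq_one_left ha11
    have hzπ : π z = 1 := by
      rw [hz, map_pow, map_mul, ha0, ha1, hπ, hπ]
      have h3 := smp_sch (n + 1) 0 (by omega)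
      unfold sch at h3
      rw [← h3]
      exact pow_orderOf_eq_one _
    have hzact : act z = 1 := hπact z hzπ
    have hz1 : Commute z a1 := hcen' 1 (by omega) le_rfl z hzact
    have hzinv1 : a1 * z * a1 = z⁻¹ := by
      have : a1 * z * a1 = ((a0 * a1)⁻¹) ^ 3 := by
        rw [hz, mul_inv_rev, ha0i, ha1i, pow_three, pow_three]
        calc a1 * (a0 * a1 * (a0 * a1 * (a0 * a1))) * a1
            = (a1 * a0) * ((a1 * a0) * (a1 * a0)) * (a1 * a1) := by group
          _ = a1 * a0 * (a1 * a0 * (a1 * a0)) := by rw [ha11, mul_one]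
      rw [this, inv_pow]
    have hzinv0 : a0 * z * a0 = z⁻¹ := by
      have : a0 * z * a0 = ((a0 * a1)⁻¹) ^ 3 := by
        rw [hz, mul_inv_rev, ha0i, ha1i, pow_three, pow_three]
        calc a0 * (a0 * a1 * (a0 * a1 * (a0 * a1))) * a0
            = (a0 * a0) * ((a1 * a0) * ((a1 * a0) * (a1 * a0))) := by group
          _ = a1 * a0 * (a1 * a0 * (a1 * a0)) := by rw [ha00, one_mul]
      rw [this, inv_pow]
    have hzz : z⁻¹ = z := by
      rw [← hzinv1, ← hz1.eq, mul_assoc, ha11, mul_one]
    have hzz' : z * z = 1 := by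
      calc z * z = z⁻¹ * z := by rw [hzz]
        _ = 1 := inv_mul_cancel z
    have hz0 : Commute z a0 := by
      show z * a0 = a0 * z
      have h1 : a0 * z * a0 = z := by rw [hzinv0, hzz]
      calc z * a0 = (a0 * z * a0) * a0 := by rw [h1]
        _ = a0 * z * (a0 * a0) := by group
        _ = a0 * z := by rw [ha00, mul_one]
    have hzi : ∀ i, Commute z (ρ i) := by
      intro i
      refine Fin.cases hz0 (fun j => ?_) i
      exact hcen' (j + 1) (by omega) (by omega) z hzact
    by_cases hz1' : z = 1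
    · right; left
      have hbr2 : ∀ (i : ℕ) (h : i + 1 < n + 1),
          (ρ ⟨i, Nat.lt_of_succ_lt h⟩ * ρ ⟨i + 1, h⟩) ^ 3 = 1 := by
        intro i h
        rcases Nat.eq_zero_or_pos i with rfl | hi
        · exact hz1'
        · exact hbr' i h hi
      have hbij := typeA_iso (n + 1) ρ hC.sq (fun i j h => hC.comm i j h) hbr2 hC.gen π hπ
      exact ⟨MulEquiv.ofBijective π hbij, fun i => hπ i⟩
    · right; right
      let κ : Fin (n + 1) → Γ := fun i => if (i : ℕ) = 0 then a0 * z else ρ i
      have hκ0 : ∀ i : Fin (n + 1), (i : ℕ) = 0 → κ i = a0 * z := fun i hi => if_pos hi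
      have hκ1 : ∀ i : Fin (n + 1), (i : ℕ) ≠ 0 → κ i = ρ i := fun i hi => if_neg hi
      have hi0 : ∀ i : Fin (n + 1), (i : ℕ) = 0 → ρ i = a0 := by
        intro i hi
        rw [ha0]
        congr 1
        exact Fin.ext hi
      obtain ⟨e, hez, he⟩ := prod_iso (n + 1) κ z hzz' hz1' (hcentral z hzi) (by
          intro i
          by_cases hi : (i : ℕ) = 0
          · rw [hκ0 i hi]
            calc a0 * z * (a0 * z) = a0 * (z * a0) * z := by group
              _ = a0 * (a0 * z) * z := by rw [hz0.eq]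
              _ = (a0 * a0) * (z * z) := by group
              _ = 1 := by rw [ha00, hzz', mul_one]
          · rw [hκ1 i hi]
            exact hC.sq i) (by
          intro i j hij
          rw [hκ1 j (by omega)]
          by_cases hi : (i : ℕ) = 0
          · rw [hκ0 i hi]
            have h1 : a0 * ρ j = ρ j * a0 := by
              rw [← hi0 i hi]
              exact hC.comm i j hij
            calc a0 * z * ρ j = a0 * (z * ρ j) := by group
              _ = a0 * (ρ j * z) := by rw [(hzi j).eq]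
              _ = (a0 * ρ j) * z := by group
              _ = ρ j * (a0 * z) := by rw [h1]; group
          · rw [hκ1 i hi]
            exact hC.comm i j hij) (by
          intro i h
          rcases Nat.eq_zero_or_pos i with rfl | hi
          · rw [hκ0 _ rfl, hκ1 ⟨0 + 1, h⟩ (by simp)]
            show (a0 * z * a1) ^ 3 = 1
            have h1 : a0 * z * a1 = (a0 * a1) * z := by
              rw [mul_assoc, hz1.eq, mul_assoc]
            have h2 : Commute (a0 * a1) z := (hz0.symm.mul_left hz1.symm)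
            rw [h1, h2.mul_pow]
            show z * z ^ 3 = 1
            rw [pow_three, hzz', mul_one, hzz']
          · rw [hκ1 _ (by show i ≠ 0; omega), hκ1 _ (by show i + 1 ≠ 0; omega)]
            exact hbr' i h hi) (by
          intro S hSz hS
          rw [eq_top_iff, ← hC.gen]
          unfold par
          rw [Subgroup.closure_le]
          rintro _ ⟨i, -, rfl⟩
          by_cases hi : (i : ℕ) = 0
          · have h1 := mul_mem (hS i) hSz
            rw [hκ0 i hi, mul_assoc, hzz', mul_one, ← hi0 i hi] at h1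
            exact h1
          · have h1 := hS i
            rw [hκ1 i hi] at h1
            exact h1) π (by
          intro i
          by_cases hi : (i : ℕ) = 0
          · rw [hκ0 i hi, map_mul, hzπ, mul_one, ← hi0 i hi]
            exact hπ i
          · rw [hκ1 i hi]
            exact hπ i) hzπ
      refine ⟨e, fun i => ?_⟩
      unfold dbl
      by_cases hi : (i : ℕ) = 0
      · have h1 : ρ i = κ i * z := by
          rw [hκ0 i hi, mul_assoc, hzz', mul_one, hi0 i hi]
        rw [h1, map_mul, he, hez, if_pos hi]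
        simp
      · have h1 : ρ i = κ i := (hκ1 i hi).symm
        rw [h1, he, if_neg hi]

/-- facets and vertex-figures are determined -/
theorem FV_unique (n : ℕ) {G' W' Γ' : Type} [Group G'] [Group W'] [Group Γ']
    (σ : Fin n → G) (τ : Fin n → W) (ρ : Fin (n + 1) → Γ) (σ' : Fin n → G')
    (τ' : Fin n → W') (ρ' : Fin (n + 1) → Γ') (hσ : par σ Set.univ = ⊤)
    (hτ : par τ Set.univ = ⊤) (hσ' : par σ' Set.univ = ⊤) (hτ' : par τ' Set.univ = ⊤)
    (h : HasFV σ τ ρ) (h' : HasFV σ' τ' ρ') (he : StrIso ρ ρ') :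
    StrIso σ σ' ∧ StrIso τ τ' := by
  obtain ⟨e, he⟩ := he
  constructor
  · obtain ⟨f, hf, hf'⟩ := h.fac
    obtain ⟨f2, hf2, hf2'⟩ := h'.fac
    have h1 : (e.toMonoidHom.comp f).range = f2.range := by
      rw [nrange_eq_par σ _ hσ, nrange_eq_par σ' _ hσ']
      congr 1
      funext i
      show e (f (σ i)) = f2 (σ' i)
      rw [hf', hf2', he]
    obtain ⟨u, hu⟩ := iso_of_range (e.toMonoidHom.comp f) f2
      (e.injective.comp hf) hf2 h1
    refine ⟨u, fun i => hf2 ?_⟩
    rw [hu]
    show e (f (σ i)) = f2 (σ' i)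
    rw [hf', hf2', he]
  · obtain ⟨f, hf, hf'⟩ := h.ver
    obtain ⟨f2, hf2, hf2'⟩ := h'.ver
    have h1 : (e.toMonoidHom.comp f).range = f2.range := by
      rw [nrange_eq_par τ _ hτ, nrange_eq_par τ' _ hτ']
      congr 1
      funext i
      show e (f (τ i)) = f2 (τ' i)
      rw [hf', hf2', he]
    obtain ⟨u, hu⟩ := iso_of_range (e.toMonoidHom.comp f) f2
      (e.injective.comp hf) hf2 h1
    refine ⟨u, fun i => hf2 ?_⟩
    rw [hu]
    show e (f (τ i)) = f2 (τ' i)
    rw [hf', hf2', he]

theorem main_neigh (n : ℕ) (hn : 3 ≤ n) (σ : Fin n → G) (τ : Fin n → W)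
    (hfin : Finite G) (hσ : IsStringC σ) (hτ : IsStringC τ)
    (hlast : sch τ (n - 2) (by omega) = 3)
    (hsch : ∀ (i : ℕ) (h : i + 1 < n), sch τ i h = 3 ∨ ¬ 3 ∣ sch τ i h)
    (hτ2 : ∀ (i : ℕ) (h : i + 1 < n), sch τ i h ≠ 2)
    (hN : ∀ g g', Share σ g g') :
    (∃ (Γ : Type) (_ : Group Γ) (ρ : Fin (n + 1) → Γ), HasFV σ τ ρ) ↔
      StrIso τ (smp n) ∧ (StrIso σ (dig n) ∨ StrIso σ (smp n) ∨ StrIso σ (dbl n)) := by
  constructor
  · rintro ⟨Γ, _, ρ, h⟩
    rcases neigh_big n hn σ τ ρ hfin hσ h hlast hsch hτ2 hN with h1 | h1 | h1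
    · have := FV_unique n σ τ ρ (dig n) (smp n) (dig (n + 1)) hσ.gen hτ.gen
        (dig_str n (by omega)).gen (smp_str n).gen h (dig_FV n (by omega)) h1
      exact ⟨this.2, Or.inl this.1⟩
    · have := FV_unique n σ τ ρ (smp n) (smp n) (smp (n + 1)) hσ.gen hτ.gen
        (smp_str n).gen (smp_str n).gen h (smp_FV n) h1
      exact ⟨this.2, Or.inr (Or.inl this.1)⟩
    · have := FV_unique n σ τ ρ (dbl n) (smp n) (dbl (n + 1)) hσ.gen hτ.gen
        (dbl_str n (by omega)).gen (smp_str n).gen h (dbl_FV n (by omega)) h1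
      exact ⟨this.2, Or.inr (Or.inr this.1)⟩
  · rintro ⟨h1, h2 | h2 | h2⟩
    · exact ⟨_, inferInstance, dig (n + 1),
        HasFV_congr σ (dig n) τ (smp n) _ h2 h1 (dig_FV n (by omega))⟩
    · exact ⟨_, inferInstance, smp (n + 1),
        HasFV_congr σ (smp n) τ (smp n) _ h2 h1 (smp_FV n)⟩
    · exact ⟨_, inferInstance, dbl (n + 1),
        HasFV_congr σ (dbl n) τ (smp n) _ h2 h1 (dbl_FV n (by omega))⟩

end Pool.Agent.Helper23.UP
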