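import Pool.Agent.Helper23.UP.Defs

/-! # UP-5: Young subgroups, the simplex is a regular polytope -/

namespace Pool.Agent.Helper23.UP

private lemma smp_le_iff (m : ℕ) (i j : Fin m) (hij : j ≠ i) (x : Fin (m + 1)) :
    (x : ℕ) ≤ i ↔ (smp m j x : ℕ) ≤ i := by
  have hij' : (j : ℕ) ≠ i := fun h => hij (Fin.ext h)
  unfold smp
  by_cases h1 : x = j.castSucc
  · rw [h1, Equiv.swap_apply_left]
    simp only [Fin.val_castSucc, Fin.val_succ]
    omega
  · by_cases h2 : x = j.succ
    · rw [h2, Equiv.swap_apply_right]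
      simp only [Fin.val_castSucc, Fin.val_succ]
      omega
    · rw [Equiv.swap_apply_of_ne_of_ne h1 h2]

private lemma le_iff_of_mem (m : ℕ) (I : Set (Fin m)) (g : Equiv.Perm (Fin (m + 1)))
    (hg : g ∈ par (smp m) I) (i : Fin m) (hi : i ∉ I) (x : Fin (m + 1)) :
    (x : ℕ) ≤ i ↔ (g x : ℕ) ≤ i := by
  revert x
  refine Subgroup.closure_induction
    (p := fun (g : Equiv.Perm (Fin (m + 1))) _ => ∀ x : Fin (m + 1), (x : ℕ) ≤ i ↔ (g x : ℕ) ≤ i)
    ?_ ?_ ?_ ?_ hg
  · rintro _ ⟨j, hj, rfl⟩ x
    exact smp_le_iff m i j (fun h => hi (h ▸ hj)) x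
  · intro x
    rfl
  · intro a b _ _ ha hb x
    rw [hb x, ha (b x)]
    rfl
  · intro a _ ha x
    rw [ha (a⁻¹ x)]
    simp

/-- the property on the right is a bijection statement -/
private lemma le_iff_of_map (m : ℕ) (g : Equiv.Perm (Fin (m + 1))) (i : ℕ)
    (h : ∀ x : Fin (m + 1), (x : ℕ) ≤ i → (g x : ℕ) ≤ i) (x : Fin (m + 1)) :
    (g x : ℕ) ≤ i → (x : ℕ) ≤ i := by
  classical
  intro hx
  set S : Finset (Fin (m + 1)) := Finset.univ.filter (fun y => (y : ℕ) ≤ i) with hS
  have hmap : S.image g ⊆ S := by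
    intro y hy
    rw [Finset.mem_image] at hy
    obtain ⟨z, hz, rfl⟩ := hy
    rw [hS, Finset.mem_filter] at hz ⊢
    exact ⟨Finset.mem_univ _, h z hz.2⟩
  have heq : S.image g = S := Finset.eq_of_subset_of_card_le hmap
    (by rw [Finset.card_image_of_injective _ g.injective])
  have : g x ∈ S.image g := by
    rw [heq, hS, Finset.mem_filter]
    exact ⟨Finset.mem_univ _, hx⟩
  rw [Finset.mem_image] at this
  obtain ⟨z, hz, hzx⟩ := this
  rw [g.injective hzx, hS, Finset.mem_filter] at hz
  exact hz.2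

private lemma exists_descent (m : ℕ) (g : Equiv.Perm (Fin (m + 1))) (hg : g ≠ 1) :
    ∃ i : Fin m, g i.succ < g i.castSucc := by
  by_contra hcon
  push Not at hcon
  have hmono : StrictMono g := by
    rw [Fin.strictMono_iff_lt_succ]
    intro i
    refine lt_of_le_of_ne (hcon i) ?_
    intro h
    have := g.injective h
    exact absurd this (Fin.castSucc_lt_succ).ne
  apply hg
  have h1 : (hmono.orderIsoOfSurjective g g.surjective) = OrderIso.refl _ :=
    Subsingleton.elim _ _
  ext x
  have h2 : (hmono.orderIsoOfSurjective g g.surjective) x = x := by rw [h1]; rfl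
  have h3 : g x = x := h2
  rw [h3]
  rfl

private def wt (m : ℕ) (g : Equiv.Perm (Fin (m + 1))) : ℕ :=
  ∑ x : Fin (m + 1), (x : ℕ) * (g x : ℕ)

private lemma wt_le (m : ℕ) (g : Equiv.Perm (Fin (m + 1))) : wt m g ≤ (m + 1) * (m * m) := by
  unfold wt
  calc ∑ x : Fin (m + 1), (x : ℕ) * (g x : ℕ) ≤ ∑ _x : Fin (m + 1), m * m :=
        Finset.sum_le_sum (fun x _ => Nat.mul_le_mul (by omega) (by have := (g x).isLt; omega))
    _ = (m + 1) * (m * m) := by simp

private lemma wt_lt (m : ℕ) (g : Equiv.Perm (Fin (m + 1))) (i : Fin m)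
    (h : g i.succ < g i.castSucc) : wt m g < wt m (g * smp m i) := by
  classical
  unfold wt
  have hne : i.castSucc ≠ i.succ := (Fin.castSucc_lt_succ).ne
  have key : ∀ f : Fin (m + 1) → ℕ, ∑ x, f x =
      (f i.castSucc + f i.succ) + ∑ x ∈ Finset.univ \ {i.castSucc, i.succ}, f x := by
    intro f
    have h1 := Finset.sum_sdiff (f := f) (Finset.subset_univ ({i.castSucc, i.succ} :
      Finset (Fin (m + 1))))
    have h2 := Finset.sum_pair (f := f) hne
    omega
  rw [key, key (fun x => (x : ℕ) * (((g * smp m i) x : Fin (m + 1)) : ℕ))]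
  have e1 : (g * smp m i) i.castSucc = g i.succ := by
    simp [smp, Equiv.Perm.mul_apply]
  have e2 : (g * smp m i) i.succ = g i.castSucc := by
    simp [smp, Equiv.Perm.mul_apply]
  have e3 : ∑ x ∈ Finset.univ \ {i.castSucc, i.succ}, (x : ℕ) * (g x : ℕ) =
      ∑ x ∈ Finset.univ \ {i.castSucc, i.succ},
        (x : ℕ) * (((g * smp m i) x : Fin (m + 1)) : ℕ) := by
    refine Finset.sum_congr rfl ?_
    intro x hx
    simp only [Finset.mem_sdiff, Finset.mem_univ, Finset.mem_insert, Finset.mem_singleton,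
      true_and, not_or] at hx
    rw [Equiv.Perm.mul_apply, smp, Equiv.swap_apply_of_ne_of_ne hx.1 hx.2]
  rw [e3]
  refine Nat.add_lt_add_right ?_ _
  rw [e1, e2]
  simp only [Fin.val_castSucc, Fin.val_succ]
  have h' : (g i.succ : ℕ) < (g i.castSucc : ℕ) := h
  nlinarith

/-- the subgroup generated by some adjacent transpositions -/
theorem mem_par_smp (m : ℕ) (I : Set (Fin m)) (g : Equiv.Perm (Fin (m + 1))) :
    g ∈ par (smp m) I ↔
      ∀ i : Fin m, i ∉ I → ∀ x : Fin (m + 1), (x : ℕ) ≤ i → (g x : ℕ) ≤ i := by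
  constructor
  · intro hg i hi x hx
    exact (le_iff_of_mem m I g hg i hi x).1 hx
  · have main : ∀ k : ℕ, ∀ g : Equiv.Perm (Fin (m + 1)),
        (m + 1) * (m * m) - wt m g = k →
        (∀ i : Fin m, i ∉ I → ∀ x : Fin (m + 1), (x : ℕ) ≤ i → (g x : ℕ) ≤ i) →
        g ∈ par (smp m) I := by
      intro k
      induction k using Nat.strong_induction_on with
      | _ k ih =>
        intro g hk hg
        by_cases h1 : g = 1
        · rw [h1]; exact Subgroup.one_mem _
        obtain ⟨i, hi⟩ := exists_descent m g h1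
        have hiI : i ∈ I := by
          by_contra hni
          have h2 := hg i hni i.castSucc (by simp)
          have h3 : (g i.succ : ℕ) ≤ i := le_trans (le_of_lt hi) h2
          have h4 := le_iff_of_map m g i (hg i hni) i.succ h3
          simp only [Fin.val_succ] at h4
          omega
        have hmem : smp m i ∈ par (smp m) I := Subgroup.subset_closure ⟨i, hiI, rfl⟩
        have hlt := wt_lt m g i hi
        have hle := wt_le m (g * smp m i)
        have h5 : g * smp m i ∈ par (smp m) I := by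
          refine ih ((m + 1) * (m * m) - wt m (g * smp m i)) (by omega) _ rfl ?_
          intro j hj x hx
          rw [Equiv.Perm.mul_apply]
          refine hg j hj _ ?_
          exact (le_iff_of_mem m I _ hmem j hj x).1 hx
        have h6 : g = (g * smp m i) * (smp m i)⁻¹ := by group
        rw [h6]
        exact Subgroup.mul_mem _ h5 (Subgroup.inv_mem _ hmem)
    exact main _ g rfl

theorem smp_str (m : ℕ) : IsStringC (smp m) where
  sq i := by
    unfold smp
    exact Equiv.swap_mul_self _ _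
  ne i := by
    unfold smp
    intro h
    rw [Equiv.swap_eq_one_iff] at h
    exact (Fin.castSucc_lt_succ).ne h
  comm i j hij := by
    unfold smp
    apply Equiv.Perm.Disjoint.commute
    apply Equiv.Perm.disjoint_swap_swap
    simp only [List.nodup_cons, List.mem_cons, List.not_mem_nil, or_false, not_or,
      List.nodup_nil, and_true, not_false_eq_true, Fin.ext_iff, Fin.val_castSucc, Fin.val_succ]
    omega
  gen := by
    rw [eq_top_iff]
    intro g _
    rw [mem_par_smp]
    intro i hi
    exact absurd (Set.mem_univ i) hi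
  inter I J := by
    ext g
    rw [Subgroup.mem_inf, mem_par_smp, mem_par_smp, mem_par_smp]
    constructor
    · rintro ⟨h1, h2⟩ i hi
      by_cases hI : i ∈ I
      · exact h2 i (fun hJ => hi ⟨hI, hJ⟩)
      · exact h1 i hI
    · intro h
      exact ⟨fun i hi => h i (fun hij => hi hij.1), fun i hi => h i (fun hij => hi hij.2)⟩

theorem smp_sch (m i : ℕ) (h : i + 1 < m) : sch (smp m) i h = 3 := by
  unfold sch smp
  have h1 : (Equiv.swap (⟨i, Nat.lt_of_succ_lt h⟩ : Fin m).castSucc
        (⟨i, Nat.lt_of_succ_lt h⟩ : Fin m).succ : Equiv.Perm (Fin (m + 1))) =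
      Equiv.swap (⟨i + 1, h⟩ : Fin m).castSucc (⟨i, Nat.lt_of_succ_lt h⟩ : Fin m).castSucc := by
    rw [Equiv.swap_comm]
    rfl
  rw [h1]
  refine Equiv.Perm.IsThreeCycle.orderOf (Equiv.Perm.isThreeCycle_swap_mul_swap_same ?_ ?_ ?_)
  · simp [Fin.ext_iff]
  · simp [Fin.ext_iff]
  · simp only [ne_eq, Fin.ext_iff, Fin.val_castSucc, Fin.val_succ]
    omega

end Pool.Agent.Helper23.UP
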